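import Mathlib
import Pool.Agent.R931.ZL.Defs

/-!
# Polarizations and endomorphisms: definitions
-/

set_option autoImplicit false

namespace Pool.Agent.R931.ZM

open Module Pool.Agent.Y114.RM Pool.Agent.R931.GD

variable {Γ : Type} [Group Γ] {N ℓ : ℕ} [Fact ℓ.Prime]

/-- `B` is the matrix of a nondegenerate symmetric or alternating form. -/
def IsForm {F : Type} [Field F] (B : Matrix (Fin N) (Fin N) F) : Prop :=
  B.det ≠ 0 ∧ (B.transpose = B ∨ B.transpose = -B)

/-- `M` preserves the form with the matrix `B` up to a scalar. -/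
def IsSimilitude {F : Type} [Field F] (B M : Matrix (Fin N) (Fin N) F) : Prop :=
  ∃ c : F, M.transpose * B * M = c • B

/-- There is a nondegenerate symmetric or alternating bilinear form which `Γ` preserves up to
scalars. -/
def Polarized (ρ : Rep1 Γ N ℓ) : Prop :=
  ∃ B : Matrix (Fin N) (Fin N) ℚ_[ℓ], IsForm B ∧ ∀ γ, IsSimilitude B (LinearMap.toMatrix' (ρ () γ))

/-- The endomorphisms which commute with `Δ`. -/
def commutant (ρ : Rep1 Γ N ℓ) (Δ : Subgroup Γ) : Submodule ℚ_[ℓ] (End ℚ_[ℓ] (Fin N → ℚ_[ℓ])) where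
  carrier := {Y | ∀ γ ∈ Δ, ρ () γ * Y = Y * ρ () γ}
  add_mem' := fun {Y Z} hY hZ γ hγ => by rw [mul_add, add_mul, hY γ hγ, hZ γ hγ]
  zero_mem' := fun γ _ => by rw [mul_zero, zero_mul]
  smul_mem' := fun a Y hY γ hγ => by rw [mul_smul_comm, smul_mul_assoc, hY γ hγ]

/-- The dimension of the algebra of the endomorphisms which commute with the elements of `X`. -/
noncomputable def centralizerDim {F V : Type} [Field F] [AddCommGroup V] [Module F V]
    (X : Set (End F V)) : ℕ :=
  finrank F (Subalgebra.centralizer F X)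

/-- The subspaces which are stable under `Δ`. -/
def stableSubspaces (ρ : Rep1 Γ N ℓ) (Δ : Subgroup Γ) : Set (Submodule ℚ_[ℓ] (Fin N → ℚ_[ℓ])) :=
  {W | ∀ γ ∈ Δ, ∀ x ∈ W, ρ () γ x ∈ W}

/-- The number of orbits of the permutations which preserve the set `R` of relations. -/
noncomputable def numOrbits {N : ℕ} (R : Set (Fin N → ℤ)) : ℕ :=
  Nat.card (MulAction.orbitRel.Quotient (Pool.Agent.R931.ZL.relAut R) (Fin N))

end Pool.Agent.R931.ZM
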