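import Mathlib
import Pool.Agent.R931.ZL.Rels
import Pool.Agent.R931.ZL.Defs

/-!
# Saturated lattices of relations
-/

set_option autoImplicit false
set_option linter.unusedSectionVars false

namespace Pool.Agent.R931.ZM

open Function Pool.Agent.R931.ZL

section push

variable {I J : Type} [Fintype I] [Fintype J] [DecidableEq I]

theorem push_add (c : J → I) (m n : J → ℤ) : push c (m + n) = push c m + push c n := by
  funext i
  simp only [push, Pi.add_apply, Finset.sum_add_distrib]

theorem push_smul (c : J → I) (a : ℤ) (n : J → ℤ) : push c (a • n) = a • push c n := by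
  funext i
  simp only [push, Pi.smul_apply, smul_eq_mul, Finset.mul_sum]

theorem push_zero (c : J → I) : push c (0 : J → ℤ) = 0 := by
  funext i
  simp only [push, Pi.zero_apply, Finset.sum_const_zero]

theorem push_snoc {r : ℕ} (d : Fin r → I) (i : I) (e : Fin (r + 1) → ℤ) :
    push (Fin.snoc (α := fun _ => I) d i) e =
      push d (fun j => e (Fin.castSucc j)) + e (Fin.last r) • Pi.single i 1 := by
  funext l
  simp only [push, Pi.add_apply, Pi.smul_apply, smul_eq_mul, Finset.sum_filter]
  rw [Fin.sum_univ_castSucc]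
  simp only [Fin.snoc_castSucc, Fin.snoc_last]
  congr 1
  by_cases h : i = l
  · subst h
    simp
  · rw [if_neg h, Pi.single_eq_of_ne (Ne.symm h), mul_zero]

end push

/-- a saturated subgroup -/
structure IsLat {I : Type} (R : Set (I → ℤ)) : Prop where
  zero : (0 : I → ℤ) ∈ R
  add : ∀ m ∈ R, ∀ n ∈ R, m + n ∈ R
  neg : ∀ m ∈ R, -m ∈ R
  sat : ∀ (a : ℤ) (n : I → ℤ), a ≠ 0 → a • n ∈ R → n ∈ R

theorem IsLat.smul {I : Type} {R : Set (I → ℤ)} (h : IsLat R) (a : ℤ) {n : I → ℤ} (hn : n ∈ R) :
    a • n ∈ R := by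
  have h1 : ∀ k : ℕ, (k : ℤ) • n ∈ R := by
    intro k
    induction k with
    | zero => rw [Nat.cast_zero, zero_smul]; exact h.zero
    | succ k ih =>
      rw [Nat.cast_succ, add_smul, one_smul]
      exact h.add _ ih _ hn
  obtain ⟨k, rfl | rfl⟩ := a.eq_nat_or_neg
  · exact h1 k
  · rw [neg_smul]
    exact h.neg _ (h1 k)

theorem IsLat.sub {I : Type} {R : Set (I → ℤ)} (h : IsLat R) {m n : I → ℤ} (hm : m ∈ R)
    (hn : n ∈ R) : m - n ∈ R := by
  rw [sub_eq_add_neg]
  exact h.add _ hm _ (h.neg _ hn)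

theorem isLat_relations {F I : Type} [Field F] [Fintype I] {z : I → F} (hz : ∀ i, z i ≠ 0) :
    IsLat (relations z) where
  zero := ⟨1, one_pos, by simp⟩
  add := by
    rintro m ⟨a, ha, hm⟩ n ⟨b, hb, hn⟩
    refine ⟨a * b, Nat.mul_pos ha hb, ?_⟩
    have h1 : ∏ i, z i ^ (m + n) i = (∏ i, z i ^ m i) * ∏ i, z i ^ n i := by
      rw [← Finset.prod_mul_distrib]
      exact Finset.prod_congr rfl fun i _ => by rw [Pi.add_apply, zpow_add₀ (hz i)]
    rw [h1, mul_pow, pow_mul, hm, one_pow, one_mul, mul_comm a b, pow_mul, hn, one_pow]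
  neg := by
    rintro m ⟨a, ha, hm⟩
    refine ⟨a, ha, ?_⟩
    have h1 : ∏ i, z i ^ (-m) i = (∏ i, z i ^ m i)⁻¹ := by
      rw [← Finset.prod_inv_distrib]
      exact Finset.prod_congr rfl fun i _ => by rw [Pi.neg_apply, zpow_neg]
    rw [h1, inv_pow, hm, inv_one]
  sat := by
    rintro a n ha ⟨b, hb, h⟩
    have h1 : (∏ i, z i ^ n i) ^ a = ∏ i, z i ^ (a • n) i := by
      rw [← Finset.prod_zpow]
      exact Finset.prod_congr rfl fun i _ => by
        rw [Pi.smul_apply, smul_eq_mul, mul_comm, zpow_mul]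
    have h2 : (∏ i, z i ^ n i) ^ (a * b) = 1 := by
      rw [zpow_mul, h1, zpow_natCast, h]
    refine ⟨(a * b).natAbs, Int.natAbs_pos.2 (mul_ne_zero ha (by exact_mod_cast hb.ne')), ?_⟩
    rcases Int.natAbs_eq (a * b) with h3 | h3
    · rw [← zpow_natCast, ← h3]
      exact h2
    · rw [← zpow_natCast, ← neg_neg ((a * b).natAbs : ℤ), ← h3, zpow_neg, h2, inv_one]

/-- two lattices of the same rank with enough common elements are equal -/
theorem lat_eq {N r : ℕ} {L R : Set (Fin N → ℤ)} (hL : IsLat L) (hR : IsLat R) (d : Fin r → Fin N)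
    (hdL : ∀ m, push d m ∈ L → m = 0) (hdR : ∀ m, push d m ∈ R → m = 0)
    (h : ∀ i, ∃ m : ℤ, m ≠ 0 ∧ ∃ q : Fin r → ℤ, m • Pi.single i (1 : ℤ) - push d q ∈ L ∧
      m • Pi.single i (1 : ℤ) - push d q ∈ R) : L = R := by
  classical
  let S : AddSubgroup (Fin N → ℤ) :=
    { carrier := {n | ∃ m : ℤ, m ≠ 0 ∧ ∃ q : Fin r → ℤ, m • n - push d q ∈ L ∧
        m • n - push d q ∈ R}
      zero_mem' := ⟨1, one_ne_zero, 0, by rw [smul_zero, push_zero, sub_zero]; exact hL.zero,
        by rw [smul_zero, push_zero, sub_zero]; exact hR.zero⟩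
      add_mem' := by
        rintro a b ⟨m, hm, q, h1, h2⟩ ⟨m', hm', q', h1', h2'⟩
        have e : (m * m') • (a + b) - push d (m' • q + m • q') =
            m' • (m • a - push d q) + m • (m' • b - push d q') := by
          rw [push_add, push_smul, push_smul, smul_sub, smul_sub, smul_smul, smul_smul, smul_add,
            mul_comm m' m]
          abel
        refine ⟨m * m', mul_ne_zero hm hm', m' • q + m • q', ?_, ?_⟩
        · rw [e]
          exact hL.add _ (hL.smul _ h1) _ (hL.smul _ h1')
        · rw [e]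
          exact hR.add _ (hR.smul _ h2) _ (hR.smul _ h2')
      neg_mem' := by
        rintro a ⟨m, hm, q, h1, h2⟩
        have e : m • (-a) - push d (-q) = -(m • a - push d q) := by
          rw [show (-q) = (-1 : ℤ) • q by rw [neg_smul, one_smul], push_smul, neg_smul, one_smul,
            smul_neg]
          abel
        refine ⟨m, hm, -q, ?_, ?_⟩
        · rw [e]
          exact hL.neg _ h1
        · rw [e]
          exact hR.neg _ h2 }
  have hS : ∀ n, n ∈ S := by
    intro n
    rw [← Finset.univ_sum_single n]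
    refine S.sum_mem fun i _ => ?_
    have e : Pi.single i (n i) = n i • Pi.single (M := fun _ => ℤ) i (1 : ℤ) := by
      funext j
      by_cases hj : j = i
      · subst hj
        simp
      · simp [Pi.single_eq_of_ne hj]
    rw [e]
    exact S.zsmul_mem (h i) _
  ext n
  obtain ⟨m, hm, q, h1, h2⟩ := hS n
  have e : m • n - (m • n - push d q) = push d q := by abel
  have e' : (m • n - push d q) + push d q = m • n := by abel
  constructor
  · intro hn
    have h3 : push d q ∈ L := by
      rw [← e]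
      exact hL.sub (hL.smul _ hn) h1
    have h4 := hdL _ h3
    refine hR.sat m n hm ?_
    rw [← e', h4, push_zero, add_zero]
    rw [h4, push_zero] at h2
    exact h2
  · intro hn
    have h3 : push d q ∈ R := by
      rw [← e]
      exact hR.sub (hR.smul _ hn) h2
    have h4 := hdR _ h3
    refine hL.sat m n hm ?_
    rw [← e', h4, push_zero, add_zero]
    rw [h4, push_zero] at h1
    exact h1

end Pool.Agent.R931.ZM
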