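import Mathlib
import Pool.Agent.R931.ZL.Step

/-!
# Elements near a regular tangent vector
-/

set_option autoImplicit false
set_option linter.unusedSectionVars false

namespace Pool.Agent.R931.ZM

open Function Polynomial Module Pool.Agent.TH118.SG Pool.Agent.Y114.RM
  Pool.Agent.Y114.MU Pool.Agent.Y114.TF Pool.Agent.Y114.GF Pool.Agent.H204R3.GP Pool.Agent.R931.GD
  Pool.Agent.Y142.ZO Pool.Agent.R931.ZL
open Pool.Agent.Y142.ZD (DistPow)
open Pool.Agent.Y497.ZO (Mt Aj)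
open Pool.Agent.Y936.SS (Om)

variable {N ℓ : ℕ} [Fact ℓ.Prime] {Γ : Type} [Group Γ] [TopologicalSpace Γ]
  [IsTopologicalGroup Γ] [CompactSpace Γ]

theorem near_tangent (hN : 0 < N) (ρ : Rep1 Γ N ℓ) (T : Mt ℓ N) (hsep : T.charpoly.Separable)
    {y : Fin N → Om ℓ} (hyinj : Injective y) (hyroot : ∀ i, aeval (y i) T.charpoly = 0)
    (E : Finset (Fin N → ℤ)) (hE : ∀ n ∈ E, n ∉ lrel y) :
    ∃ (δ : ℝ) (k₀ : ℕ), 0 < δ ∧
      ∀ (k : ℕ) (γ : Γ), k₀ ≤ k →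
        (∀ a b, ‖((((ℓ : ℚ_[ℓ]) ^ k)⁻¹ • (matRep ρ γ - 1)) - T) a b‖ < δ) →
        (matRep ρ γ).charpoly.Separable ∧ DistPow ℓ (matRep ρ γ).charpoly ∧
        ∃ z : Fin N → Om ℓ, Injective z ∧ (∀ i, aeval (z i) (matRep ρ γ).charpoly = 0) ∧
          (∀ n ∈ E, n ∉ relations z) ∧
          (∀ (τ : Om ℓ ≃ₐ[ℚ_[ℓ]] Om ℓ) i j, τ (y i) = y j → τ (z i) = z j) := by
  classical
  obtain ⟨ε₁, hε₁, hrad⟩ := exists_radius_add y E hE
  obtain ⟨ε₂, hε₂, hmin⟩ : ∃ ε₂ : ℝ, 0 < ε₂ ∧ ∀ i j, i ≠ j → ε₂ ≤ ‖y i - y j‖ := by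
    have hne : Nonempty (Fin N) := ⟨⟨0, hN⟩⟩
    let F : Fin N × Fin N → ℝ := fun q => if q.1 = q.2 then 1 else ‖y q.1 - y q.2‖
    refine ⟨Finset.univ.inf' Finset.univ_nonempty F, ?_, fun i j hij => ?_⟩
    · rw [Finset.lt_inf'_iff]
      rintro ⟨i, j⟩ -
      simp only [F]
      split_ifs with h
      · exact one_pos
      · rw [norm_pos_iff, sub_ne_zero]
        exact fun h' => h (hyinj h')
    · refine (Finset.inf'_le _ (Finset.mem_univ (i, j))).trans ?_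
      simp only [F, if_neg hij]
      exact le_rfl
  obtain ⟨δ₁, k₁, hδ₁, hA⟩ := stepA T y hyroot (ε := min ε₁ ε₂) (by positivity)
    (fun i j hij => (min_le_right _ _).trans (hmin i j hij))
  obtain ⟨ε₃, k₂, hε₃, hkr⟩ := Pool.Agent.Y518.SS.t ℓ T.charpoly (Matrix.charpoly_monic _) hsep
  obtain ⟨δ₂, k₃, hδ₂, hch⟩ := Pool.Agent.Y737.SS.Chara.t ℓ N hN T ε₃ hε₃
  refine ⟨min δ₁ δ₂, k₁ + k₂ + k₃, by positivity, fun k γ hk hclose => ?_⟩
  have h1 := hch k (matRep ρ γ) (by omega) fun a b => (hclose a b).trans_le (min_le_right _ _)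
  obtain ⟨hsep', hdist', -⟩ := hkr k (matRep ρ γ).charpoly (by omega) (Matrix.charpoly_monic _)
    (by rw [Matrix.charpoly_natDegree_eq_dim, Matrix.charpoly_natDegree_eq_dim]) h1
  obtain ⟨f, z, hzinj, hzroot, -, hyroot', -, hrel, hnear⟩ := hA k (matRep ρ γ) (by omega)
    (fun a b => (hclose a b).trans_le (min_le_left _ _)) hsep' hdist'
  have hviol := hrad (fun i => aeval (z i) f) fun i => (hnear i).trans_le (min_le_left _ _)
  refine ⟨hsep', hdist', z, hzinj, hzroot, fun n hn => ?_, fun τ i j hij => ?_⟩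
  · rw [← hrel]
    exact hviol n hn
  · have h2 : aeval (τ (z i)) (matRep ρ γ).charpoly = 0 := by
      have h3 := congrArg τ (hzroot i)
      rw [map_zero, ← AlgEquiv.coe_toAlgHom, ← Polynomial.aeval_algHom_apply] at h3
      exact h3
    obtain ⟨l, hl⟩ := (sep_of_roots (Matrix.charpoly_monic _) (by
      rw [Matrix.charpoly_natDegree_eq_dim, Fintype.card_fin]) hzinj hzroot).2 _ h2
    rw [← hl]
    congr 1
    by_contra hne
    have h3 : aeval (z l) f = τ (aeval (z i) f) := by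
      rw [hl]
      exact Polynomial.aeval_algHom_apply (τ : Om ℓ →ₐ[ℚ_[ℓ]] Om ℓ) (z i) f
    have h5 : ‖y l - y j‖ < min ε₁ ε₂ := by
      have h6 : y l - y j = -(aeval (z l) f - y l) + τ (aeval (z i) f - y i) := by
        rw [map_sub, hij, h3]
        ring
      rw [h6]
      refine (IsUltrametricDist.norm_add_le_max _ _).trans_lt (max_lt ?_ ?_)
      · rw [norm_neg]
        exact hnear l
      · rw [norm_aut]
        exact hnear i
    exact absurd (hmin l j hne) (not_le.2 (h5.trans_le (min_le_right _ _)))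

/-- the case of a logarithm -/
theorem near_log (hN : 0 < N) (ρ : Rep1 Γ N ℓ) (hρ : Conts ρ) {G : Type} [Group G] (s : G →* Γ)
    (σ : G) (hsep : (matRep ρ (s σ)).charpoly.Separable)
    (hdist : DistPow ℓ (matRep ρ (s σ)).charpoly)
    {z₀ : Fin N → Om ℓ} (hinj : Injective z₀)
    (hz₀ : ∀ i, aeval (z₀ i) (matRep ρ (s σ)).charpoly = 0)
    (E : Finset (Fin N → ℤ)) (hE : ∀ n ∈ E, n ∉ relations z₀) :
    ∃ (T : Mt ℓ N) (δ : ℝ) (k₀ : ℕ), IsTangent ℓ ((matRep ρ).comp s) T ∧ 0 < δ ∧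
      ∀ (k : ℕ) (γ : Γ), k₀ ≤ k →
        (∀ a b, ‖((((ℓ : ℚ_[ℓ]) ^ k)⁻¹ • (matRep ρ γ - 1)) - T) a b‖ < δ) →
        (matRep ρ γ).charpoly.Separable ∧ DistPow ℓ (matRep ρ γ).charpoly ∧
        ∃ z : Fin N → Om ℓ, Injective z ∧ (∀ i, aeval (z i) (matRep ρ γ).charpoly = 0) ∧
          (∀ n ∈ E, n ∉ relations z) ∧
          (∀ (τ : Om ℓ ≃ₐ[ℚ_[ℓ]] Om ℓ) i j, τ (z₀ i) = z₀ j → τ (z i) = z j) := by
  obtain ⟨f₀, h₀, htan⟩ := exists_log ρ hρ s σ hsep hdist hinj hz₀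
  obtain ⟨δ, k₀, hδ, h1⟩ := near_tangent hN ρ (aeval (matRep ρ (s σ)) f₀) h₀.sep h₀.yinj h₀.yroot E
    (by rw [h₀.rel]; exact hE)
  refine ⟨_, δ, k₀, htan, hδ, fun k γ hk hclose => ?_⟩
  obtain ⟨h2, h3, z, h4, h5, h6, h7⟩ := h1 k γ hk hclose
  refine ⟨h2, h3, z, h4, h5, h6, fun τ i j hij => h7 τ i j ?_⟩
  change τ (aeval (z₀ i) f₀) = aeval (z₀ j) f₀
  rw [← hij]
  exact (Polynomial.aeval_algHom_apply (τ : Om ℓ →ₐ[ℚ_[ℓ]] Om ℓ) (z₀ i) f₀).symm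

end Pool.Agent.R931.ZM
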