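import Mathlib
import Pool.Agent.R931.ZL.Real
import Pool.Agent.R931.ZM.Near
import Pool.Agent.R931.ZM.Lat
import Pool.Agent.R931.IR.Place
import Pool.Agent.Y537.ZI.Multi
import Pool.Agent.Y405.ZO.Frob

/-!
# Places of maximal rank with prescribed local properties
-/

set_option autoImplicit false
set_option linter.unusedSectionVars false

namespace Pool.Agent.R931.ZM

open Function Polynomial Module NumberField IsDedekindDomain Pool.Agent.TH118.SG
  Pool.Agent.Y114.RM Pool.Agent.Y114.MU Pool.Agent.Y114.TF Pool.Agent.Y114.GF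
  Pool.Agent.H204R3.GP Pool.Agent.R931.GD Pool.Agent.Y142.ZO Pool.Agent.R931.ZL
open Pool.Agent.Y142.ZD (DistPow)
open Pool.Agent.Y142.ZS (NiceP nice_of_p)
open Pool.Agent.Y497.ZO (Mt Aj)
open Pool.Agent.Y936.SS (Om)
open Pool.Agent.Y142.ZI (QQ)

/-- the data -/
structure SetupG (K : Type) [Field K] [NumberField K] (Γ : Type) [Group Γ] [TopologicalSpace Γ]
    [IsTopologicalGroup Γ] [CompactSpace Γ] (s : Gal(AlgebraicClosure K/K) →* Γ) (N : ℕ) (wt : ℤ)
    (c r : ℕ) (S : Set (HeightOneSpectrum (𝓞 K))) (P : HeightOneSpectrum (𝓞 K) → ℚ[X])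
    (ρ : ∀ (ℓ : ℕ) [Fact ℓ.Prime], Rep1 Γ N ℓ) : Prop where
  pos : 0 < N
  cont_s : Continuous s
  cont : ∀ (ℓ : ℕ) [Fact ℓ.Prime], Conts (ρ ℓ)
  fin : S.Finite
  good : ∀ (ℓ : ℕ) [Fact ℓ.Prime], ∀ v ∉ S, ¬ Above v ℓ →
    GoodReduction (restrictTo (ρ ℓ) s) () wt v (P v)
  integral : ∀ v ∉ S, IntegralAt c v (P v)
  rank : ∀ v, NiceP S P v → ¬ IndepRoots (r + 1) {P v}

section

variable {K : Type} [Field K] [NumberField K] {Γ : Type} [Group Γ] [TopologicalSpace Γ]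
  [IsTopologicalGroup Γ] [CompactSpace Γ] {s : Gal(AlgebraicClosure K/K) →* Γ} {N : ℕ} {wt : ℤ}
  {c r : ℕ} {S : Set (HeightOneSpectrum (𝓞 K))} {P : HeightOneSpectrum (𝓞 K) → ℚ[X]}
  {ρ : ∀ (ℓ : ℕ) [Fact ℓ.Prime], Rep1 Γ N ℓ}

theorem SetupG.frob (h : SetupG K Γ s N wt c r S P ρ) (ℓ : ℕ) [Fact ℓ.Prime]
    {v : HeightOneSpectrum (𝓞 K)} (hv : v ∉ S) (hvℓ : ¬ Above v ℓ) {σ : GK K}
    (hσ : IsFrobenius v σ) :
    (matRep (ρ ℓ) (s σ⁻¹)).charpoly = (P v).map (algebraMap ℚ ℚ_[ℓ]) := by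
  obtain ⟨Q, hQm, hQ, hfrob⟩ := hσ
  have h3 := (((h.good ℓ v hv hvℓ).2 Q ⟨hQm.isPrime, hQ⟩ σ).2 hfrob)
  have h4 : ((ρ ℓ) () (s σ⁻¹)).charpoly = (P v).map (algebraMap ℚ ℚ_[ℓ]) := h3
  rw [matRep_apply, ← Matrix.charpoly_toLin', Matrix.toLin'_toMatrix']
  exact h4

theorem SetupG.sys (h : SetupG K Γ s N wt c r S P ρ) (ℓ : ℕ) [Fact ℓ.Prime] :
    Pool.Agent.Y142.SS.Sys K N ℓ ((matRep (ρ ℓ)).comp s) S P :=
  ⟨(h.cont ℓ ()).comp h.cont_s, fun _ hv hvℓ _ hσ => h.frob ℓ hv hvℓ hσ⟩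

theorem SetupG.monic (h : SetupG K Γ s N wt c r S P ρ) {v : HeightOneSpectrum (𝓞 K)}
    (hv : v ∉ S) : (P v).Monic ∧ (P v).natDegree = N :=
  Pool.Agent.Y142.SS.monic_of_sysA (fun ℓ _ => (matRep (ρ ℓ)).comp s) (fun ℓ _ => h.sys ℓ) hv

theorem SetupG.pure (h : SetupG K Γ s N wt c r S P ρ) {v : HeightOneSpectrum (𝓞 K)}
    (hv : v ∉ S) : ∀ b : ℂ, aeval b (P v) = 0 → ‖b‖ ^ 2 = (q v : ℝ) ^ wt := by
  obtain ⟨ℓ, hℓ, hp⟩ := Nat.exists_infinite_primes (Ideal.absNorm v.asIdeal + 1)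
  have : Fact ℓ.Prime := ⟨hp⟩
  have hvℓ : ¬ Above v ℓ := not_mem_of_lt v hp (by omega : Ideal.absNorm v.asIdeal < ℓ)
  intro b hb
  refine (h.good ℓ v hv hvℓ).1 b ?_
  rw [mem_aroots]
  exact ⟨(h.monic hv).1.ne_zero, hb⟩

theorem SetupG.ne_zero (h : SetupG K Γ s N wt c r S P ρ) {v : HeightOneSpectrum (𝓞 K)}
    (hv : v ∉ S) {x : QQ} (hx : aeval x (P v) = 0) : x ≠ 0 := by
  rintro rfl
  have h1 : aeval (0 : ℂ) (P v) = 0 := by
    have h2 := congrArg (algebraMap ℚ QQ) (show (P v).coeff 0 = (P v).coeff 0 from rfl)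
    rw [aeval_def, eval₂_at_zero] at hx ⊢
    have h3 : (P v).coeff 0 = 0 := (algebraMap ℚ QQ).injective (by rw [hx, map_zero])
    rw [h3, map_zero]
  have h2 := h.pure hv 0 h1
  rw [norm_zero, zero_pow two_ne_zero] at h2
  have h3 : (q v : ℝ) ≠ 0 := by
    have h4 : Ideal.absNorm v.asIdeal ≠ 0 := by
      rw [Ne, Ideal.absNorm_eq_zero_iff]
      exact v.ne_bot
    exact_mod_cast h4
  exact zpow_ne_zero wt h3 h2.symm

/-- dependence of `r + 1` eigenvalues -/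
theorem SetupG.dep (h : SetupG K Γ s N wt c r S P ρ) {v : HeightOneSpectrum (𝓞 K)}
    (hnice : NiceP S P v) {ℓ : ℕ} [Fact ℓ.Prime] (z : Fin (r + 1) → Om ℓ)
    (hz : ∀ a, aeval (z a) ((P v).map (algebraMap ℚ ℚ_[ℓ])) = 0) :
    ∃ e ∈ exsK (r + 1) (finrank ℚ K) N c wt, e ∈ relations z := by
  have hv := hnice.1
  by_contra hcon
  push_neg at hcon
  obtain ⟨pr, f, hpr, hf, hqv⟩ := exists_residue v
  obtain ⟨j⟩ := Pool.Agent.R931.IR.exists_emb ℓ
  obtain ⟨-, h2⟩ := indep_of_violated (F := Om ℓ) j (r := r + 1) (d := finrank ℚ K) (N := N) (c := c)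
      (wt := wt) (h.monic hv).1.ne_zero (h.monic hv).2 hpr hf
      (fun b hb => by rw [← hqv]; exact h.pure hv b hb)
      (fun b hb => by rw [← hqv]; exact h.integral v hv b hb) z
      (fun k => by
        have h2 := hz k
        rw [aeval_map_algebraMap] at h2
        have h3 := congrArg j.toRatAlgHom h2
        rw [map_zero, ← aeval_algHom_apply] at h3
        exact h3) hcon
  exact h.rank v hnice h2

/-- independence of `r` eigenvalues -/
theorem SetupG.ind (h : SetupG K Γ s N wt c r S P ρ) {v : HeightOneSpectrum (𝓞 K)} (hv : v ∉ S)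
    {ℓ : ℕ} [Fact ℓ.Prime] (z : Fin r → Om ℓ)
    (hz : ∀ a, aeval (z a) ((P v).map (algebraMap ℚ ℚ_[ℓ])) = 0)
    (hE : ∀ e ∈ exsK r (finrank ℚ K) N c wt, e ∉ relations z) :
    (∀ e, e ∈ relations z → e = 0) ∧ IndepRoots r {P v} := by
  obtain ⟨pr, f, hpr, hf, hqv⟩ := exists_residue v
  obtain ⟨j⟩ := Pool.Agent.R931.IR.exists_emb ℓ
  exact indep_of_violated (F := Om ℓ) j (r := r) (d := finrank ℚ K) (N := N) (c := c)
      (wt := wt) (h.monic hv).1.ne_zero (h.monic hv).2 hpr hf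
      (fun b hb => by rw [← hqv]; exact h.pure hv b hb)
      (fun b hb => by rw [← hqv]; exact h.integral v hv b hb) z
      (fun k => by
        have h2 := hz k
        rw [aeval_map_algebraMap] at h2
        have h3 := congrArg j.toRatAlgHom h2
        rw [map_zero, ← aeval_algHom_apply] at h3
        exact h3) hE

/-- realization of local data by a place of maximal rank -/
theorem realize (h : SetupG K Γ s N wt c r S P ρ) (I : Type) [Fintype I] [Nonempty I]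
    (p : I → ℕ) [∀ i, Fact (p i).Prime] (hp : Injective p) (σ : I → GK K)
    (hsep : ∀ i, (matRep (ρ (p i)) (s (σ i))).charpoly.Separable)
    (hdist : ∀ i, DistPow (p i) (matRep (ρ (p i)) (s (σ i))).charpoly)
    (z₀ : ∀ i, Fin N → Om (p i)) (hinj : ∀ i, Injective (z₀ i))
    (hz₀ : ∀ i a, aeval (z₀ i a) (matRep (ρ (p i)) (s (σ i))).charpoly = 0)
    (hr₀ : ∀ i, RankR r (relations (z₀ i))) :
    ∃ v, GoodPl S P r v ∧ (∀ i, ¬ Above v (p i)) ∧ ∀ i, ∃ z : Fin N → Om (p i), Injective z ∧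
      (∀ a, aeval (z a) ((P v).map (algebraMap ℚ ℚ_[p i])) = 0) ∧ relations z = relations (z₀ i) ∧
      ∀ (τ : Om (p i) ≃ₐ[ℚ_[p i]] Om (p i)) a b, τ (z₀ i a) = z₀ i b → τ (z a) = z b := by
  classical
  choose d hd using hr₀
  set D : ℕ := finrank ℚ K with hD
  let E : ∀ i, Finset (Fin N → ℤ) := fun i => (exsK r D N c wt).image (push (d i)) ∪
    ((Finset.univ : Finset (Fin (r + 1) → Fin N)).biUnion fun d' =>
      (exsK (r + 1) D N c wt).image (push d')).filter fun n => n ∉ relations (z₀ i)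
  have hE : ∀ i, ∀ n ∈ E i, n ∉ relations (z₀ i) := by
    intro i n hn
    rcases Finset.mem_union.1 hn with hn | hn
    · intro hmem
      obtain ⟨e, he, rfl⟩ := Finset.mem_image.1 hn
      have h1 := hd i e hmem
      rw [h1] at he
      exact zero_notMem_exsK r D N c wt he
    · exact (Finset.mem_filter.1 hn).2
  have hstep := fun i => near_log h.pos (ρ (p i)) (h.cont (p i)) s (σ i) (hsep i) (hdist i) (hinj i)
    (hz₀ i) (E i) (hE i)
  choose T δ k₀ htan hδ hclose using hstep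
  obtain ⟨δ', hδ', hδδ⟩ : ∃ δ' : ℝ, 0 < δ' ∧ ∀ i, δ' ≤ δ i := by
    refine ⟨Finset.univ.inf' Finset.univ_nonempty δ, ?_,
      fun i => Finset.inf'_le _ (Finset.mem_univ i)⟩
    rw [Finset.lt_inf'_iff]
    exact fun i _ => hδ i
  obtain ⟨O, hO, hOne, hOσ⟩ := Pool.Agent.Y537.ZI.t (GK K) N I p hp
    (fun i => (matRep (ρ (p i))).comp s) (fun i => (h.cont (p i) ()).comp h.cont_s) T htan δ'
    (Finset.univ.sup k₀) hδ'
  have hfin : (S ∪ ⋃ i, {v : HeightOneSpectrum (𝓞 K) | (p i : 𝓞 K) ∈ v.asIdeal}).Finite :=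
    h.fin.union (Set.finite_iUnion fun i => finite_above (p i) (Fact.out : (p i).Prime))
  obtain ⟨v, hv, s', hs, hsO⟩ := Pool.Agent.Y405.ZO.t K O hO hOne _ hfin
  rw [Set.mem_union, not_or, Set.mem_iUnion, not_exists] at hv
  have hvp : ∀ i, ¬ Above v (p i) := hv.2
  obtain ⟨hPm, hPd⟩ := h.monic hv.1
  have hmain : ∀ i, ((P v).map (algebraMap ℚ ℚ_[p i])).Separable ∧
      DistPow (p i) ((P v).map (algebraMap ℚ ℚ_[p i])) ∧
      ∃ z : Fin N → Om (p i), Injective z ∧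
        (∀ a, aeval (z a) ((P v).map (algebraMap ℚ ℚ_[p i])) = 0) ∧
        (∀ n ∈ E i, n ∉ relations z) ∧
        (∀ (τ : Om (p i) ≃ₐ[ℚ_[p i]] Om (p i)) a b, τ (z₀ i a) = z₀ i b → τ (z a) = z b) := by
    intro i
    obtain ⟨k, hk, hcl⟩ := hOσ s'⁻¹ hsO i
    have h1 := hclose i k (s s'⁻¹) ((Finset.le_sup (Finset.mem_univ i)).trans hk)
      (fun a b => (hcl a b).trans_le (hδδ i))
    rw [h.frob (p i) hv.1 (hvp i) hs] at h1
    exact h1
  have hind : ∀ i (z : Fin N → Om (p i)),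
      (∀ a, aeval (z a) ((P v).map (algebraMap ℚ ℚ_[p i])) = 0) → (∀ n ∈ E i, n ∉ relations z) →
      (∀ m, push (d i) m ∈ relations z → m = 0) ∧ IndepRoots r {P v} := by
    intro i z hz hzE
    have hz0 : ∀ a, z a ≠ 0 := fun a =>
      ne_zero_of_root (ρ (p i)) (s s'⁻¹) (by rw [h.frob (p i) hv.1 (hvp i) hs]; exact hz a)
    obtain ⟨h1, h2⟩ := h.ind hv.1 (fun k => z (d i k)) (fun k => hz _) fun e he hmem => by
      rw [mem_mrel_comp hz0] at hmem
      exact hzE _ (Finset.mem_union_left _ (Finset.mem_image_of_mem _ he)) hmem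
    exact ⟨fun e he => h1 e ((mem_mrel_comp hz0 _ _).2 he), h2⟩
  obtain ⟨i₀⟩ := ‹Nonempty I›
  have hnice : NiceP S P v := nice_of_p hv.1 hPm (p i₀) (hmain i₀).1 (hmain i₀).2.1
  obtain ⟨z', -, hz', hz'E, -⟩ := (hmain i₀).2.2
  refine ⟨v, ⟨hnice, (hind i₀ z' hz' hz'E).2⟩, hvp, fun i => ?_⟩
  obtain ⟨z, hzinj, hz, hzE, hzτ⟩ := (hmain i).2.2
  have hz0 : ∀ a, z a ≠ 0 := fun a =>
    ne_zero_of_root (ρ (p i)) (s s'⁻¹) (by rw [h.frob (p i) hv.1 (hvp i) hs]; exact hz a)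
  refine ⟨z, hzinj, hz, ?_, hzτ⟩
  have hL := isLat_relations hz0
  have hR := isLat_relations (z := z₀ i) fun a => ne_zero_of_root (ρ (p i)) (s (σ i)) (hz₀ i a)
  refine lat_eq hL hR (d i) (hind i z hz hzE).1 (hd i) fun a => ?_
  obtain ⟨e, he, hrel⟩ := h.dep hnice
    (fun k => z (Fin.snoc (α := fun _ => Fin N) (d i) a k)) (fun k => hz _)
  rw [mem_mrel_comp hz0] at hrel
  have hrel' : push (Fin.snoc (α := fun _ => Fin N) (d i) a) e ∈ relations (z₀ i) := by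
    by_contra hno
    refine hzE _ (Finset.mem_union_right _ (Finset.mem_filter.2 ⟨?_, hno⟩)) hrel
    exact Finset.mem_biUnion.2 ⟨_, Finset.mem_univ _, Finset.mem_image_of_mem _ he⟩
  rw [push_snoc] at hrel hrel'
  have hlast : e (Fin.last r) ≠ 0 := by
    intro h0
    rw [h0, zero_smul, add_zero] at hrel'
    have h2 := hd i _ hrel'
    have h3 : e = 0 := by
      funext k
      refine Fin.lastCases h0 (fun k => congrFun h2 k) k
    rw [h3] at he
    exact zero_notMem_exsK _ _ _ _ _ he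
  refine ⟨e (Fin.last r), hlast, fun k => -e (Fin.castSucc k), ?_, ?_⟩
  · have e1 : e (Fin.last r) • Pi.single a (1 : ℤ) - push (d i) (fun k => -e (Fin.castSucc k)) =
        push (d i) (fun k => e (Fin.castSucc k)) + e (Fin.last r) • Pi.single a 1 := by
      have e2 : (fun k => -e (Fin.castSucc k)) = (-1 : ℤ) • fun k : Fin r => e (Fin.castSucc k) := by
        funext k
        simp
      rw [e2, push_smul, neg_smul, one_smul]
      abel
    rw [e1]
    exact hrel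
  · have e1 : e (Fin.last r) • Pi.single a (1 : ℤ) - push (d i) (fun k => -e (Fin.castSucc k)) =
        push (d i) (fun k => e (Fin.castSucc k)) + e (Fin.last r) • Pi.single a 1 := by
      have e2 : (fun k => -e (Fin.castSucc k)) = (-1 : ℤ) • fun k : Fin r => e (Fin.castSucc k) := by
        funext k
        simp
      rw [e2, push_smul, neg_smul, one_smul]
      abel
    rw [e1]
    exact hrel'

end

end Pool.Agent.R931.ZM
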