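import Mathlib
import Pool.Agent.R931.ZM.Real
import Pool.Agent.R931.ZL.Top

/-!
# New places with prescribed action on the roots, preserving the relations
-/

set_option autoImplicit false
set_option linter.unusedSectionVars false

namespace Pool.Agent.R931.ZM

open Function Polynomial Module NumberField IsDedekindDomain Pool.Agent.TH118.SG
  Pool.Agent.Y114.RM Pool.Agent.Y114.MU Pool.Agent.Y114.TF Pool.Agent.Y114.GF
  Pool.Agent.H204R3.GP Pool.Agent.R931.GD Pool.Agent.Y142.ZO Pool.Agent.Y142.ZI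
  Pool.Agent.Y142.SS Pool.Agent.R931.ZL
open Pool.Agent.Y142.ZD (DistPow dist_of_nice)
open Pool.Agent.Y142.ZS (NiceP nice_of_p)
open Pool.Agent.Y936.SS (Om)

section

variable {K : Type} [Field K] [NumberField K] {Γ : Type} [Group Γ] [TopologicalSpace Γ]
  [IsTopologicalGroup Γ] [CompactSpace Γ] {s : Gal(AlgebraicClosure K/K) →* Γ} {N : ℕ} {wt : ℤ}
  {c r : ℕ} {S : Set (HeightOneSpectrum (𝓞 K))} {P : HeightOneSpectrum (𝓞 K) → ℚ[X]}
  {ρ : ∀ (ℓ : ℕ) [Fact ℓ.Prime], Rep1 Γ N ℓ}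

/-- new places with prescribed Galois action -/
theorem key_rel (h : SetupG K Γ s N wt c r S P ρ) (hLOC : S_LOC) (I : Type) [Finite I]
    [Nonempty I] (u : I → HeightOneSpectrum (𝓞 K)) (hu : ∀ i, GoodPl S P r (u i))
    (g : I → GK ℚ) (M : IntermediateField ℚ QQ) (hM : FiniteDimensional ℚ M) :
    ∃ v, GoodPl S P r v ∧ ∀ i, ∃ σ : GK ℚ, (∀ x ∈ M, σ x = g i x) ∧
      (∀ x : QQ, aeval x (P (u i)) = 0 → σ x = g i x) ∧ RelTrans N (P (u i)) (P v) σ := by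
  classical
  let _ : Fintype I := Fintype.ofFinite I
  have := hM
  have hex : ∀ (i : I) (b : ℕ), ∃ ℓ : ℕ, b < ℓ ∧ ∃ _ : Fact ℓ.Prime,
      ∃ (ι : QQ →+* AlgebraicClosure ℚ_[ℓ])
      (τ : AlgebraicClosure ℚ_[ℓ] ≃ₐ[ℚ_[ℓ]] AlgebraicClosure ℚ_[ℓ]) (σ : GK ℚ),
      (∀ x : QQ, τ (ι x) = ι (σ x)) ∧ (∀ x ∈ M, σ x = g i x) ∧
        ∀ x : QQ, aeval x (P (u i)) = 0 → σ x = g i x := by
    intro i b
    have := Lf_finite (P (u i))
    obtain ⟨ℓ, hℓ, hp, ι, τ, σ, -, h1, h2⟩ := hLOC (M ⊔ Lf (P (u i)))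
      (IntermediateField.finiteDimensional_sup M (Lf (P (u i)))) (g i) b
    exact ⟨ℓ, hℓ, hp, ι, τ, σ, h1, fun x hx => h2 x ((le_sup_left : M ≤ M ⊔ Lf (P (u i))) hx),
      fun x hx => h2 x ((le_sup_right : Lf (P (u i)) ≤ M ⊔ Lf (P (u i)))
        (mem_Lf (hu i).1.2.1.ne_zero hx))⟩
  obtain ⟨p, hpinj, hpi⟩ := exists_inj _ hex (Finset.univ.sup fun i => Ideal.absNorm (u i).asIdeal)
  choose hpb hpp ι τ σ hτ hσM hσP using hpi
  have : ∀ i, Fact (p i).Prime := hpp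
  have hpu : ∀ i, ¬ Above (u i) (p i) := fun i => not_mem_of_lt _ (hpp i).out
    ((Finset.le_sup (f := fun i => Ideal.absNorm (u i).asIdeal) (Finset.mem_univ i)).trans_lt
      (hpb i))
  -- orderings of the roots
  have hord : ∀ i, ∃ x : Fin N → QQ, Injective x ∧ ∀ a, aeval (x a) (P (u i)) = 0 := fun i =>
    exists_ordering' (h.monic (hu i).1.1).2 (hu i).1.2.2.1
  choose x hxinj hx using hord
  choose fr hfr using fun i => Pool.Agent.W401.Frob.exists_frob (u i)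
  have hchar : ∀ i, (matRep (ρ (p i)) (s (fr i)⁻¹)).charpoly =
      (P (u i)).map (algebraMap ℚ ℚ_[p i]) := fun i => h.frob (p i) (hu i).1.1 (hpu i) (hfr i)
  have hx0 : ∀ i a, x i a ≠ 0 := fun i a => h.ne_zero (hu i).1.1 (hx i a)
  obtain ⟨v, hv, -, hz⟩ := ZM.realize h I p hpinj (fun i => (fr i)⁻¹)
    (fun i => by rw [hchar]; exact (hu i).1.2.2.1.map)
    (fun i => by rw [hchar]; exact dist_of_nice (hu i).1 (p i))
    (fun i a => ι i (x i a)) (fun i => (ι i).injective.comp (hxinj i))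
    (fun i a => by rw [hchar]; exact push_root (p i) (ι i) (hx i a))
    (fun i => by
      rw [mrel_map]
      exact rank_of_indep (hu i).1.2.1.ne_zero (x i)
        (fun y hy => exhaust (hu i).1.2.1.ne_zero (h.monic (hu i).1.1).2 (hxinj i) (hx i) hy)
        (hx0 i) (hu i).2)
  refine ⟨v, hv, fun i => ⟨σ i, hσM i, hσP i, ?_⟩⟩
  obtain ⟨z, hzinj, hzroot, hzrel, hzτ⟩ := hz i
  have hlift : ∀ a, ∃ y : QQ, aeval y (P v) = 0 ∧ ι i y = z a := fun a =>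
    lift_root (p i) (ι i) hv.1.2.1.ne_zero (hzroot a)
  choose x' hx' hxz using hlift
  have hxz' : (fun a => ι i (x' a)) = z := funext hxz
  refine relTrans_of (hu i).1.2.1.ne_zero (h.monic (hu i).1.1).2 (hxinj i) (hx i)
    (x' := x') ?_ hx' ?_ ?_
  · intro a b hab
    apply hzinj
    rw [← hxz, ← hxz, hab]
  · rw [← mrel_map (ι i) x', hxz', hzrel, mrel_map]
  · intro a b hab
    apply (ι i).injective
    rw [hxz, ← hτ, hxz]
    apply hzτ
    rw [hτ, hab]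

/-- new places whose splitting fields are as independent as possible, with a given class -/
theorem key3R (h : SetupG K Γ s N wt c r S P ρ) (hLOC : S_LOC) (hINT : S_INT)
    {v₁ : HeightOneSpectrum (𝓞 K)} (hv₁ : GoodPl S P r v₁) (w : GK ℚ)
    (M : IntermediateField ℚ QQ) (hM : FiniteDimensional ℚ M) :
    ∃ (v : HeightOneSpectrum (𝓞 K)) (Q : ℚ[X]), GoodPl S P r v ∧ M ≤ Lf Q ∧
      (∀ a ∈ Subgroup.closure (⋃ u : {u // GoodPl S P r u}, Fix (P u)), ∃ t ∈ Fix (P v),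
        ∀ x ∈ Lf Q, t x = a x) ∧
      ∃ σ : GK ℚ, (∀ x ∈ Lf Q, σ x = w x) ∧
        (∀ x : QQ, aeval x (P v₁) = 0 → σ x = w x) ∧ RelTrans N (P v₁) (P v) σ := by
  classical
  obtain ⟨f, hf, hMf, -⟩ := hINT M hM
  set Q : ℚ[X] := f.map (Int.castRingHom ℚ) with hQ
  have hQ0 : Q ≠ 0 := (hf.map _).ne_zero
  have hMQ : M ≤ Lf Q := by
    refine hMf.trans ?_
    rw [IntermediateField.adjoin_le_iff]
    intro x hx
    refine mem_Lf hQ0 ?_
    rw [hQ, show (Int.castRingHom ℚ) = algebraMap ℤ ℚ from rfl, aeval_map_algebraMap]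
    exact hx
  have hfin : FiniteDimensional ℚ (Lf Q) := Lf_finite Q
  have : Finite (GK ℚ ⧸ fixSub (Lf Q)) :=
    Subgroup.quotient_finite_of_isOpen _ (fixSub_open _ hfin)
  let I : Type := {c : GK ℚ ⧸ fixSub (Lf Q) // ∃ u : {u // GoodPl S P r u}, ∃ a ∈ Fix (P u),
    (QuotientGroup.mk a : GK ℚ ⧸ fixSub (Lf Q)) = c}
  have : Finite I := Subtype.finite
  have hI : ∀ c : I, ∃ u : {u // GoodPl S P r u}, ∃ a ∈ Fix (P u),
      (QuotientGroup.mk a : GK ℚ ⧸ fixSub (Lf Q)) = c.1 := fun c => c.2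
  choose idx el hel1 hel2 using hI
  obtain ⟨v, hv, hσ⟩ := key_rel h hLOC (I ⊕ Unit)
    (Sum.elim (fun c => (idx c : HeightOneSpectrum (𝓞 K))) fun _ => v₁)
    (by rintro (c | j); exacts [(idx c).2, hv₁])
    (Sum.elim el fun _ => w) (Lf Q) hfin
  have hdeg := h.monic hv.1.1
  refine ⟨v, Q, hv, hMQ, fun a ha => ?_, hσ (Sum.inr ())⟩
  refine Subgroup.closure_induction (p := fun a _ => ∃ t ∈ Fix (P v), ∀ x ∈ Lf Q, t x = a x)
    ?_ ?_ ?_ ?_ ha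
  · intro a ha
    obtain ⟨u, hu⟩ := Set.mem_iUnion.1 ha
    let c : I := ⟨QuotientGroup.mk a, u, a, hu, rfl⟩
    obtain ⟨σ, h1, h2, h3⟩ := hσ (Sum.inl c)
    simp only [Sum.elim_inl] at h1 h2 h3
    have hidx := h.monic (idx c).2.1.1
    refine ⟨σ, fix_of_relTrans hidx.2 (idx c).2.1.2.2.1 hdeg.1.ne_zero hdeg.2 h3
      fun x hx => (h2 x hx).trans (hel1 c x hx), fun x hx => ?_⟩
    rw [h1 x hx]
    have h4 : (QuotientGroup.mk (el c) : GK ℚ ⧸ fixSub (Lf Q)) = QuotientGroup.mk a := hel2 c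
    rw [eq_comm, QuotientGroup.eq] at h4
    have h5 := mem_fixSub.1 h4 x hx
    have h6 := congrArg a h5
    rw [← AlgEquiv.mul_apply, mul_inv_cancel_left] at h6
    exact h6
  · exact ⟨1, fun x _ => rfl, fun x _ => rfl⟩
  · rintro a b - - ⟨t, ht, hta⟩ ⟨t', ht', htb⟩
    refine ⟨t * t', fun x hx => ?_, fun x hx => ?_⟩
    · rw [AlgEquiv.mul_apply, ht' x hx, ht x hx]
    · rw [AlgEquiv.mul_apply, AlgEquiv.mul_apply, htb x hx, hta _ (stable_Lf Q b hx)]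
  · rintro a - ⟨t, ht, hta⟩
    refine ⟨t⁻¹, fun x hx => ?_, fun x hx => ?_⟩
    · have h1 := congrArg (t⁻¹ : GK ℚ) (ht x hx)
      rw [← AlgEquiv.mul_apply, inv_mul_cancel, AlgEquiv.one_apply] at h1
      exact h1.symm
    · have h1 := hta (a⁻¹ x) (stable_Lf Q a⁻¹ hx)
      rw [← AlgEquiv.mul_apply a, mul_inv_cancel, AlgEquiv.one_apply] at h1
      have h2 := congrArg (t⁻¹ : GK ℚ) h1
      rw [← AlgEquiv.mul_apply, inv_mul_cancel, AlgEquiv.one_apply] at h2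
      exact h2.symm

/-- the zero-one law for a class -/
theorem densityR (h : SetupG K Γ s N wt c r S P ρ) (hLOC : S_LOC) (hINT : S_INT)
    (hDENS2 : S_DENS2)
    (htop : Subgroup.closure (⋃ u : {u // GoodPl S P r u}, Fix (P u)) = ⊤)
    {Φ : ℚ[X] → Set (GK ℚ)} (hΦ : IsClassR N Φ) {v₁ : HeightOneSpectrum (𝓞 K)}
    (hv₁ : GoodPl S P r v₁) {w : GK ℚ} (hw : w ∈ Φ (P v₁)) (Bad : Set ℕ)
    (hBad : ∀ ℓ ∈ Bad, ℓ.Prime)
    (hbad : ∀ v, GoodPl S P r v → ∃ b : ℕ, ∀ ℓ ∈ Bad, b < ℓ → ∀ σ, FrobAt ℓ σ → σ ∉ Φ (P v)) :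
    Pool.Agent.Y142.ZI.DensityZero Bad := by
  classical
  refine hDENS2 Bad N.factorial hBad fun M hM => ?_
  obtain ⟨v, Q, hv, hMQ, hfix, σ, h1, h2, h3⟩ := key3R h hLOC hINT hv₁ w M hM
  obtain ⟨b, hb⟩ := hbad v hv
  have hdeg := (h.monic hv.1.1).2
  refine ⟨Lf (P v), Φ (P v), Lf_finite _, Lf_normal _, ?_, fun g hg h => hΦ.conj _ g h hg,
    fun g hg t ht => hΦ.mul _ g t hg fun x hx => ht x (mem_Lf hv.1.2.1.ne_zero hx), ?_, b,
    fun ℓ hℓ hbℓ σ hσ => hb ℓ hℓ hbℓ σ hσ⟩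
  · have h1 := Lf_finrank hv.1.2.2.1
    rwa [hdeg] at h1
  · intro g
    obtain ⟨t, ht, hta⟩ := hfix (σ⁻¹ * g) (by rw [htop]; exact Subgroup.mem_top _)
    have hσΦ : σ ∈ Φ (P v) := by
      refine hΦ.trans _ _ _ h3 ?_
      have e : σ = w * (w⁻¹ * σ) := by group
      rw [e]
      refine hΦ.mul _ _ _ hw fun x hx => ?_
      rw [AlgEquiv.mul_apply, h2 x hx, ← AlgEquiv.mul_apply, inv_mul_cancel, AlgEquiv.one_apply]
    refine ⟨g⁻¹ * (σ * t), fun x hx => ?_, ?_⟩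
    · rw [AlgEquiv.mul_apply, AlgEquiv.mul_apply, hta x (hMQ hx), ← AlgEquiv.mul_apply σ,
        mul_inv_cancel_left, ← AlgEquiv.mul_apply, inv_mul_cancel, AlgEquiv.one_apply]
    · rw [mul_inv_cancel_left]
      exact hΦ.mul _ _ _ hσΦ ht

theorem closure_top (h : SetupG K Γ s N wt c r S P ρ) (hLOC : S_LOC) (R : Set (Fin N → ℤ))
    {J : Type} [Finite J] {T : J → Set (Equiv.Perm (Fin N))} (hne : ∃ j, (T j).Nonempty)
    (hT : GeneratesInvariably (relAut R) (⋃ j, T j)) (hT' : SeparatedModulo (relAut R) T)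
    (σ₀ : J → GK ℚ) (hσ₀ : ∀ j, ∀ a ∈ T j, ∃ v, GoodPl S P r v ∧ σ₀ j ∈ Typ R a (P v)) :
    Subgroup.closure (⋃ u : {u // GoodPl S P r u}, Fix (P u)) = ⊤ := by
  classical
  set 𝒞 := Subgroup.closure (⋃ u : {u // GoodPl S P r u}, Fix (P u)) with h𝒞
  have hmem : ∀ v, GoodPl S P r v → ∀ g ∈ Fix (P v), g ∈ 𝒞 := fun v hv g hg =>
    Subgroup.subset_closure (Set.mem_iUnion.2 ⟨⟨v, hv⟩, hg⟩)
  have hconj : ∀ g : GK ℚ, ∀ d ∈ 𝒞, g * d * g⁻¹ ∈ 𝒞 := by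
    intro g d hd
    refine Subgroup.closure_induction (p := fun d _ => g * d * g⁻¹ ∈ 𝒞) ?_ ?_ ?_ ?_ hd
    · intro d hd
      obtain ⟨u, hu⟩ := Set.mem_iUnion.1 hd
      exact hmem u.1 u.2 _ (fix_conj hu g)
    · rw [mul_one, mul_inv_cancel]
      exact 𝒞.one_mem
    · intro a b _ _ ha hb
      have h1 := 𝒞.mul_mem ha hb
      have h2 : g * a * g⁻¹ * (g * b * g⁻¹) = g * (a * b) * g⁻¹ := by group
      rwa [h2] at h1
    · intro a _ ha
      have h1 := 𝒞.inv_mem ha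
      have h2 : (g * a * g⁻¹)⁻¹ = g * a⁻¹ * g⁻¹ := by group
      rwa [h2] at h1
  let T' : Type := Σ j, T j
  have hT'fin : Finite T' := inferInstanceAs (Finite (Σ j, T j))
  obtain ⟨j₀, b₀, hb₀⟩ := hne
  let a₀ : T' := ⟨j₀, b₀, hb₀⟩
  have : Nonempty T' := ⟨a₀⟩
  choose u hu x hinj hx hR hg using fun a : T' => hσ₀ a.1 a.2 a.2.2
  have hdeg := fun a => h.monic (hu a).1.1
  let M : IntermediateField ℚ QQ := Lf (P (u a₀))
  obtain ⟨v, hv, hσ⟩ := key_rel h hLOC T' u hu (fun a => σ₀ a.1) M (Lf_finite _)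
  have hdv := h.monic hv.1.1
  have h1 : ∀ a : T', ∃ σ : GK ℚ, (σ₀ a.1)⁻¹ * σ ∈ 𝒞 ∧ σ ∈ Typ R a.2 (P v) := by
    intro a
    obtain ⟨σ, hM, hσP, hrel⟩ := hσ a
    refine ⟨σ, ?_, (typ_isClass R (a.2 : Equiv.Perm (Fin N))).trans _ _ _ hrel
      ⟨x a, hinj a, hx a, hR a, fun i => ?_⟩⟩
    · refine hmem _ (hu a₀) _ fun y hy => ?_
      rw [AlgEquiv.mul_apply, hM y (mem_Lf (hdeg a₀).1.ne_zero hy), ← AlgEquiv.mul_apply,
        inv_mul_cancel, AlgEquiv.one_apply]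
    · rw [hσP _ (hx a i)]
      exact hg a i
  choose σ hσ𝒞 y hyinj hy hyR hyσ using h1
  have hperm : ∀ w : Fin N → QQ, Injective w → (∀ i, aeval (w i) (P v) = 0) → relations w = R →
      ∃ π ∈ relAut R, ∀ i, y a₀ (π i) = w i := by
    intro w hwinj hw hwR
    obtain ⟨π, hπ⟩ := exists_equiv hwinj (u := y a₀)
      (fun i => exhaust hdv.1.ne_zero hdv.2 (hyinj a₀) (hy a₀) (hw i)) rfl
    refine ⟨π, mem_autR_of (hyR a₀) ?_, hπ⟩
    rw [show (fun i => y a₀ (π i)) = w from funext hπ, hwR]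
  have hact : ∀ g : GK ℚ, ∃ π ∈ relAut R, ∀ i, g (y a₀ i) = y a₀ (π i) := by
    intro g
    obtain ⟨π, hπ, h2⟩ := hperm (fun i => g (y a₀ i)) (g.injective.comp (hyinj a₀))
      (fun i => aeval_aut _ (hy a₀ i))
      ((mrel_map (g : QQ ≃ₐ[ℚ] QQ).toRingEquiv.toRingHom (y a₀)).trans (hyR a₀))
    exact ⟨π, hπ, fun i => (h2 i).symm⟩
  -- the action on the roots of `P v`, restricted to a subgroup
  let im : Subgroup (GK ℚ) → Subgroup (Equiv.Perm (Fin N)) := fun 𝒟 =>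
    { carrier := {a | a ∈ relAut R ∧ ∃ d ∈ 𝒟, ∀ i, d (y a₀ i) = y a₀ (a i)}
      mul_mem' := by
        rintro a b ⟨ha, d, hd, hda⟩ ⟨hb, e, he, heb⟩
        refine ⟨(relAut R).mul_mem ha hb, d * e, 𝒟.mul_mem hd he, fun i => ?_⟩
        rw [AlgEquiv.mul_apply, heb, hda]
        rfl
      one_mem' := ⟨(relAut R).one_mem, 1, 𝒟.one_mem, fun i => rfl⟩
      inv_mem' := by
        rintro a ⟨ha, d, hd, hda⟩
        refine ⟨(relAut R).inv_mem ha, d⁻¹, 𝒟.inv_mem hd, fun i => ?_⟩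
        have h2 := hda (a⁻¹ i)
        have h3 : a (a⁻¹ i) = i := Equiv.apply_symm_apply a i
        rw [h3] at h2
        have h4 := congrArg (d⁻¹ : GK ℚ) h2
        rw [← AlgEquiv.mul_apply, inv_mul_cancel, AlgEquiv.one_apply] at h4
        exact h4.symm }
  -- the permutations `π a * a * (π a)⁻¹`
  have hπ : ∀ a : T', ∃ π ∈ relAut R, ∀ i, (σ a) (y a₀ i) = y a₀ ((π * a.2 * π⁻¹) i) := by
    intro a
    obtain ⟨π, hπ, h2⟩ := hperm (y a) (hyinj a) (hy a) (hyR a)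
    refine ⟨π, hπ, fun i => ?_⟩
    have h3 : π (π⁻¹ i) = i := Equiv.apply_symm_apply π i
    have h4 := hyσ a (π⁻¹ i)
    rw [← h2, ← h2, h3] at h4
    exact h4
  choose π hπA hπσ using hπ
  have hTA : ∀ a : T', (a.2 : Equiv.Perm (Fin N)) ∈ relAut R := by
    intro a
    refine mem_autR_of (hyR a) ?_
    have h2 : (fun i => y a ((a.2 : Equiv.Perm (Fin N)) i)) = fun i => (σ a) (y a i) :=
      funext fun i => (hyσ a i).symm
    rw [h2]
    exact (mrel_map (σ a : QQ ≃ₐ[ℚ] QQ).toRingEquiv.toRingHom (y a)).trans (hyR a)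
  have hG : im ⊤ = relAut R := hT (im ⊤) (fun a ha => ha.1) fun a ha => by
    obtain ⟨j, hj⟩ := Set.mem_iUnion.1 ha
    let a' : T' := ⟨j, a, hj⟩
    refine ⟨(π a')⁻¹, (relAut R).inv_mem (hπA _), ?_, σ a', Subgroup.mem_top _, fun i => ?_⟩
    · rw [inv_inv]
      exact (relAut R).mul_mem ((relAut R).mul_mem (hπA _) (hTA a')) ((relAut R).inv_mem (hπA _))
    · rw [inv_inv]
      exact hπσ a' i
  have hH : im 𝒞 = relAut R := by
    refine hT' (im 𝒞) (fun a ha => ha.1) ?_ ?_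
    · rintro x hx a ⟨ha, d, hd, hda⟩
      rw [← hG] at hx
      obtain ⟨hx, g, -, hgx⟩ := hx
      refine ⟨(relAut R).mul_mem ((relAut R).mul_mem hx ha) ((relAut R).inv_mem hx), g * d * g⁻¹,
        hconj g d hd, fun i => ?_⟩
      have h3 : x (x⁻¹ i) = i := Equiv.apply_symm_apply x i
      have h2 := hgx (x⁻¹ i)
      rw [h3] at h2
      have h4 := congrArg (g⁻¹ : GK ℚ) h2
      rw [← AlgEquiv.mul_apply, inv_mul_cancel, AlgEquiv.one_apply] at h4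
      rw [AlgEquiv.mul_apply, AlgEquiv.mul_apply, ← h4, hda, hgx]
      rfl
    · intro j a ha b hb
      let a' : T' := ⟨j, a, ha⟩
      let b' : T' := ⟨j, b, hb⟩
      -- `σ a` and `σ b` agree modulo the closure
      have h2 : σ a' * (σ b')⁻¹ ∈ 𝒞 := by
        have h3 := 𝒞.mul_mem (hσ𝒞 a') (𝒞.inv_mem (hσ𝒞 b'))
        have h4 := hconj (σ₀ j) _ h3
        have h5 : σ₀ j * ((σ₀ j)⁻¹ * σ a' * ((σ₀ j)⁻¹ * σ b')⁻¹) * (σ₀ j)⁻¹ =
            σ a' * (σ b')⁻¹ := by group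
        rw [← h5]
        exact h4
      refine ⟨(π a')⁻¹ * π b', (relAut R).mul_mem ((relAut R).inv_mem (hπA a')) (hπA b'), ?_⟩
      have h6 : ((π a')⁻¹ * π b')⁻¹ * a * ((π a')⁻¹ * π b') * b⁻¹ =
          (π b')⁻¹ * ((π a' * a * (π a')⁻¹) * (π b' * b * (π b')⁻¹)⁻¹) * π b' := by group
      rw [h6]
      have h7 : (π a' * a * (π a')⁻¹) * (π b' * b * (π b')⁻¹)⁻¹ ∈ im 𝒞 := by
        have h8 : (π a' * a * (π a')⁻¹) ∈ relAut R :=
          (relAut R).mul_mem ((relAut R).mul_mem (hπA a') (hTA a')) ((relAut R).inv_mem (hπA a'))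
        have h9 : (π b' * b * (π b')⁻¹) ∈ relAut R :=
          (relAut R).mul_mem ((relAut R).mul_mem (hπA b') (hTA b')) ((relAut R).inv_mem (hπA b'))
        refine ⟨(relAut R).mul_mem h8 ((relAut R).inv_mem h9), _, h2, fun i => ?_⟩
        have h10 := hπσ b' ((π b' * b * (π b')⁻¹)⁻¹ i)
        have h11 : (π b' * b * (π b')⁻¹) ((π b' * b * (π b')⁻¹)⁻¹ i) = i :=
          Equiv.apply_symm_apply (π b' * b * (π b')⁻¹) i
        rw [show ((π b' * ↑b'.2 * (π b')⁻¹) ((π b' * b * (π b')⁻¹)⁻¹ i)) = i from h11] at h10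
        have h12 := congrArg ((σ b')⁻¹ : GK ℚ) h10
        rw [← AlgEquiv.mul_apply, inv_mul_cancel, AlgEquiv.one_apply] at h12
        rw [AlgEquiv.mul_apply, ← h12, hπσ a']
        rfl
      -- `im 𝒞` is normal
      obtain ⟨h13, d, hd, hda⟩ := h7
      have hx : (π b')⁻¹ ∈ im ⊤ := by rw [hG]; exact (relAut R).inv_mem (hπA b')
      obtain ⟨-, g, -, hgx⟩ := hx
      refine ⟨(relAut R).mul_mem ((relAut R).mul_mem ((relAut R).inv_mem (hπA b')) h13) (hπA b'),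
        g * d * g⁻¹, hconj g d hd, fun i => ?_⟩
      have h3 : (π b')⁻¹ (π b' i) = i := Equiv.symm_apply_apply (π b') i
      have h2 := hgx (π b' i)
      rw [h3] at h2
      have h4 := congrArg (g⁻¹ : GK ℚ) h2
      rw [← AlgEquiv.mul_apply, inv_mul_cancel, AlgEquiv.one_apply] at h4
      rw [AlgEquiv.mul_apply, AlgEquiv.mul_apply, ← h4, hda, hgx]
      rfl
  rw [eq_top_iff]
  intro g _
  obtain ⟨x, hx, h2⟩ := hact g
  rw [← hH] at hx
  obtain ⟨-, d, hd, hda⟩ := hx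
  have h4 : d⁻¹ * g ∈ 𝒞 := by
    refine hmem v hv _ fun w hw => ?_
    obtain ⟨i, rfl⟩ := exhaust hdv.1.ne_zero hdv.2 (hyinj a₀) (hy a₀) hw
    rw [AlgEquiv.mul_apply, h2 i]
    have h5 := congrArg (d⁻¹ : GK ℚ) (hda i)
    rw [← AlgEquiv.mul_apply, inv_mul_cancel, AlgEquiv.one_apply] at h5
    exact h5.symm
  have h5 := 𝒞.mul_mem hd h4
  rwa [mul_inv_cancel_left] at h5

end

end Pool.Agent.R931.ZM
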