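import Mathlib
import Pool.Agent.R931.ZM.Key
import Pool.Agent.R931.ZM.Pencil
import Pool.Agent.Y708.ZO.Tan

/-!
# Comparison of two places at `ℓ`
-/

set_option autoImplicit false
set_option linter.unusedSectionVars false

namespace Pool.Agent.R931.ZM

open Function Polynomial Module NumberField IsDedekindDomain Pool.Agent.TH118.SG
  Pool.Agent.Y114.RM Pool.Agent.Y114.MU Pool.Agent.Y114.TF Pool.Agent.Y114.GF
  Pool.Agent.H204R3.GP Pool.Agent.R931.GD Pool.Agent.Y142.ZO Pool.Agent.Y142.ZI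
  Pool.Agent.Y142.SS Pool.Agent.R931.ZL
open Pool.Agent.Y142.ZD (DistPow dist_of_nice)
open Pool.Agent.Y142.ZS (NiceP nice_of_p)
open Pool.Agent.Y497.ZO (Mt Aj)
open Pool.Agent.Y936.SS (Om)

variable {K : Type} [Field K] [NumberField K] {Γ : Type} [Group Γ] [TopologicalSpace Γ]
  [IsTopologicalGroup Γ] [CompactSpace Γ] {s : Gal(AlgebraicClosure K/K) →* Γ} {N : ℕ} {wt : ℤ}
  {c r : ℕ} {S : Set (HeightOneSpectrum (𝓞 K))} {P : HeightOneSpectrum (𝓞 K) → ℚ[X]}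
  {ρ : ∀ (ℓ : ℕ) [Fact ℓ.Prime], Rep1 Γ N ℓ}

theorem dependent_tangent (h : SetupG K Γ s N wt c r S P ρ) (ℓ : ℕ) [Fact ℓ.Prime] {T : Mt ℓ N}
    (hT : IsTangent ℓ ((matRep (ρ ℓ)).comp s) T) (hsep : T.charpoly.Separable) :
    Dependent (Om ℓ) (exsK (r + 1) (finrank ℚ K) N c wt) (lin T) := by
  classical
  intro w hw
  by_contra hcon
  push Not at hcon
  obtain ⟨y, hyinj, hy⟩ := exists_ordering (N := N) (p := T.charpoly)
    (by rw [Matrix.charpoly_natDegree_eq_dim, Fintype.card_fin]) hsep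
  have hall := (sep_of_roots (Matrix.charpoly_monic _) (by
    rw [Matrix.charpoly_natDegree_eq_dim, Fintype.card_fin]) hyinj hy).2
  have hex : ∀ j, ∃ i, y i = w j := fun j => hall _ (by
    have h1 := hw j
    rwa [charpoly_lin] at h1)
  choose d hd using hex
  obtain ⟨δ, k₀, hδ, hclose⟩ := near_tangent h.pos (ρ ℓ) T hsep hyinj hy
    ((exsK (r + 1) (finrank ℚ K) N c wt).image (push d)) (by
      intro n hn hmem
      obtain ⟨e, he, rfl⟩ := Finset.mem_image.1 hn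
      rw [← mem_lrel_comp] at hmem
      apply hcon e he
      rw [← hmem]
      refine Finset.sum_congr rfl fun j _ => ?_
      simp only
      rw [hd])
  obtain ⟨O, hO, hOne, hOσ⟩ := Pool.Agent.Y537.ZI.t (GK K) N Unit (fun _ => ℓ) (fun _ _ _ => rfl)
    (fun _ => (matRep (ρ ℓ)).comp s) (fun _ => (h.cont ℓ ()).comp h.cont_s) (fun _ => T)
    (fun _ => hT) δ k₀ hδ
  have hfin : (S ∪ {v : HeightOneSpectrum (𝓞 K) | (ℓ : 𝓞 K) ∈ v.asIdeal}).Finite :=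
    h.fin.union (finite_above ℓ (Fact.out : ℓ.Prime))
  obtain ⟨v, hv, s', hs, hsO⟩ := Pool.Agent.Y405.ZO.t K O hO hOne _ hfin
  rw [Set.mem_union, not_or] at hv
  obtain ⟨k, hk, hcl⟩ := hOσ s'⁻¹ hsO ()
  have h1 := hclose k (s s'⁻¹) hk hcl
  have hz0' := fun (z : Om ℓ) hz => ne_zero_of_root (ρ ℓ) (s s'⁻¹) (z := z) hz
  rw [h.frob ℓ hv.1 hv.2 hs] at h1 hz0'
  obtain ⟨hs1, hs2, z, hzinj, hz, hzE, -⟩ := h1
  obtain ⟨e, he, hrel⟩ := h.dep (nice_of_p hv.1 (h.monic hv.1).1 ℓ hs1 hs2) (fun j => z (d j))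
    fun j => hz _
  rw [mem_mrel_comp fun a => hz0' _ (hz a)] at hrel
  exact hzE _ (Finset.mem_image_of_mem _ he) hrel

theorem compareG (h : SetupG K Γ s N wt c r S P ρ) (ℓ : ℕ) [Fact ℓ.Prime] {γ₀ γ₁ : Γ}
    {z₀ z₁ : Fin N → Om ℓ} {f₀ f₁ : ℚ_[ℓ][X]}
    (h₀ : LogAt (ρ ℓ) γ₀ z₀ f₀) (h₁ : LogAt (ρ ℓ) γ₁ z₁ f₁)
    (t₀ : IsTangent ℓ ((matRep (ρ ℓ)).comp s) (aeval (matRep (ρ ℓ) γ₀) f₀))
    (t₁ : IsTangent ℓ ((matRep (ρ ℓ)).comp s) (aeval (matRep (ρ ℓ) γ₁) f₁))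
    (hr₀ : RankR r (relations z₀)) (hr₁ : RankR r (relations z₁))
    (W : Submodule ℚ_[ℓ] (∀ _ : Unit, Fin N → ℚ_[ℓ]))
    (hW₀ : ∀ x ∈ W, lin (aeval (matRep (ρ ℓ) γ₀) f₀) x ∈ W)
    (hW₁ : ∀ x ∈ W, lin (aeval (matRep (ρ ℓ) γ₁) f₁) x ∈ W) :
    ∃ π : Equiv.Perm (Fin N), (∀ n, n ∈ relations z₁ ↔ (fun i => n (π i)) ∈ relations z₀) ∧
      ∀ i, aeval (aeval (z₁ (π i)) f₁) ((lin (aeval (matRep (ρ ℓ) γ₁) f₁)).restrict hW₁).charpoly = 0 ↔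
        aeval (aeval (z₀ i) f₀) ((lin (aeval (matRep (ρ ℓ) γ₀) f₀)).restrict hW₀).charpoly = 0 := by
  have hy₁ := h₁.rel ▸ hr₁
  obtain ⟨c₁, hc₁⟩ := hy₁.indep
  have hline : ∀ t : ℚ_[ℓ], (lin (aeval (matRep (ρ ℓ) γ₀) f₀) + t •
      (lin (aeval (matRep (ρ ℓ) γ₁) f₁) - lin (aeval (matRep (ρ ℓ) γ₀) f₀))).charpoly.Separable →
      Dependent (Om ℓ) (exsK (r + 1) (finrank ℚ K) N c wt) (lin (aeval (matRep (ρ ℓ) γ₀) f₀) + t •
      (lin (aeval (matRep (ρ ℓ) γ₁) f₁) - lin (aeval (matRep (ρ ℓ) γ₀) f₀))) := by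
    intro t ht
    have e : lin (aeval (matRep (ρ ℓ) γ₀) f₀) + t •
      (lin (aeval (matRep (ρ ℓ) γ₁) f₁) - lin (aeval (matRep (ρ ℓ) γ₀) f₀)) =
      lin (aeval (matRep (ρ ℓ) γ₀) f₀ + t • (aeval (matRep (ρ ℓ) γ₁) f₁ +
        (-1 : ℚ_[ℓ]) • aeval (matRep (ρ ℓ) γ₀) f₀)) := by
      change linHom ℓ N _ + t • (linHom ℓ N _ - linHom ℓ N _) = linHom ℓ N _
      rw [map_add, map_smul, map_add, map_smul]
      congr 2
      module
    rw [e, charpoly_lin] at ht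
    rw [e]
    exact dependent_tangent h ℓ (Pool.Agent.Y708.ZO.tangent_add _ t₀
      (Pool.Agent.Y708.ZO.tangent_smul _ t (Pool.Agent.Y708.ZO.tangent_add _ t₁
        (Pool.Agent.Y708.ZO.tangent_smul _ (-1) t₀)))) ht
  obtain ⟨x, hxinj, hxroot, hxrel, hxW⟩ := pencilG (Ω := Om ℓ)
    (exsK (r + 1) (finrank ℚ K) N c wt) (zero_notMem_exsK _ _ _ _ _) hline W hW₀ hW₁
    (fun i => aeval (z₀ i) f₀) h₀.yinj (by rw [finrank_uu, Fintype.card_fin])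
    (fun i => by rw [charpoly_lin]; exact h₀.yroot i) (by rw [charpoly_lin]; exact h₁.sep)
    (h₀.rel ▸ hr₀).indep ⟨fun j => aeval (z₁ (c₁ j)) f₁,
      fun j => by rw [charpoly_lin]; exact h₁.yroot _, hc₁⟩
  have hex : ∀ i, ∃ j, aeval (z₁ j) f₁ = x i := fun i =>
    (sep_of_roots (Matrix.charpoly_monic _) (by
      rw [Matrix.charpoly_natDegree_eq_dim, Fintype.card_fin]) h₁.yinj h₁.yroot).2 (x i) (by
        have h2 := hxroot i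
        rwa [charpoly_lin] at h2)
  obtain ⟨π, hπ⟩ := exists_equiv hxinj hex rfl
  refine ⟨π, fun n => ?_, fun i => ?_⟩
  · rw [← h₁.rel, ← h₀.rel, mem_lrel_perm π n]
    have h2 : (fun i => aeval (z₁ (π i)) f₁) = x := funext hπ
    rw [h2]
    exact hxrel _
  · rw [hπ]
    exact hxW i

end Pool.Agent.R931.ZM
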