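import Mathlib
import Pool.Agent.R931.ZM.Loc
import Pool.Agent.R931.ZL.Local
import Pool.Agent.R931.ZL.Jordan

/-!
# Invariant subspaces at `ℓ`
-/

set_option autoImplicit false
set_option linter.unusedSectionVars false

namespace Pool.Agent.R931.ZM

open Function Polynomial Module NumberField IsDedekindDomain Pool.Agent.TH118.SG
  Pool.Agent.Y114.RM Pool.Agent.Y114.MU Pool.Agent.Y114.TF Pool.Agent.Y114.GF
  Pool.Agent.H204R3.GP Pool.Agent.R931.GD Pool.Agent.Y142.ZO Pool.Agent.Y142.ZI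
  Pool.Agent.Y142.SS Pool.Agent.R931.BD Pool.Agent.R931.ZL
open Pool.Agent.Y142.ZD (DistPow dist_of_nice)
open Pool.Agent.Y142.ZS (NiceP nice_of_p)
open Pool.Agent.Y497.ZO (Mt Aj)
open Pool.Agent.Y936.SS (Om)

section

variable {K : Type} [Field K] [NumberField K] {Γ : Type} [Group Γ] [TopologicalSpace Γ]
  [IsTopologicalGroup Γ] [CompactSpace Γ] {s : Gal(AlgebraicClosure K/K) →* Γ} {N : ℕ} {wt : ℤ}
  {c r : ℕ} {S : Set (HeightOneSpectrum (𝓞 K))} {P : HeightOneSpectrum (𝓞 K) → ℚ[X]}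
  {ρ : ∀ (ℓ : ℕ) [Fact ℓ.Prime], Rep1 Γ N ℓ}

/-- the logarithms at good places -/
theorem SetupG.log (h : SetupG K Γ s N wt c r S P ρ) (ℓ : ℕ) [Fact ℓ.Prime]
    {v : HeightOneSpectrum (𝓞 K)} (hv : GoodPl S P r v) (hvℓ : ¬ Above v ℓ) {z : Fin N → Om ℓ}
    (hinj : Injective z) (hz : ∀ i, aeval (z i) ((P v).map (algebraMap ℚ ℚ_[ℓ])) = 0) :
    ∃ (γ : Γ) (f : ℚ_[ℓ][X]), (matRep (ρ ℓ) γ).charpoly = (P v).map (algebraMap ℚ ℚ_[ℓ]) ∧
      LogAt (ρ ℓ) γ z f ∧ RankR r (relations z) ∧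
      IsTangent ℓ ((matRep (ρ ℓ)).comp s) (aeval (matRep (ρ ℓ) γ) f) := by
  obtain ⟨σ, hσ⟩ := Pool.Agent.W401.Frob.exists_frob v
  have hchar := h.frob ℓ hv.1.1 hvℓ hσ
  obtain ⟨f, hf, htan⟩ := exists_log (ρ ℓ) (h.cont ℓ) s σ⁻¹ (by rw [hchar]; exact hv.1.2.2.1.map)
    (by rw [hchar]; exact dist_of_nice hv.1 ℓ) hinj (fun i => by rw [hchar]; exact hz i)
  refine ⟨s σ⁻¹, f, hchar, hf, ?_, htan⟩
  obtain ⟨ι⟩ := emb ℓ
  have hlift : ∀ a, ∃ y : QQ, aeval y (P v) = 0 ∧ ι y = z a := fun a =>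
    lift_root ℓ ι hv.1.2.1.ne_zero (hz a)
  choose x hx hxz using hlift
  have hxz' : (fun a => ι (x a)) = z := funext hxz
  have hxinj : Injective x := fun a b hab => hinj (by rw [← hxz, ← hxz, hab])
  rw [← hxz', mrel_map]
  exact rank_of_indep hv.1.2.1.ne_zero x
    (fun y hy => exhaust hv.1.2.1.ne_zero (h.monic hv.1.1).2 hxinj hx hy)
    (fun a => h.ne_zero hv.1.1 (hx a)) hv.2

/-- a place which splits at `ℓ`, with the eigenbasis of a Frobenius element -/
structure SplitDat (ρ : ∀ (ℓ : ℕ) [Fact ℓ.Prime], Rep1 Γ N ℓ) (s : Gal(AlgebraicClosure K/K) →* Γ)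
    (S : Set (HeightOneSpectrum (𝓞 K))) (P : HeightOneSpectrum (𝓞 K) → ℚ[X]) (r ℓ : ℕ)
    [Fact ℓ.Prime] (R : Set (Fin N → ℤ)) (v : HeightOneSpectrum (𝓞 K)) (γ : Γ) (x : Fin N → ℚ_[ℓ])
    (b : Basis (Fin N) ℚ_[ℓ] (∀ _ : Unit, Fin N → ℚ_[ℓ])) (f : ℚ_[ℓ][X]) : Prop where
  good : GoodPl S P r v
  xinj : Injective x
  xroot : ∀ i, aeval (x i) ((P v).map (algebraMap ℚ ℚ_[ℓ])) = 0
  rel : relations x = R
  eig : ∀ i, sumRep (ρ ℓ) γ (b i) = x i • b i
  log : LogAt (ρ ℓ) γ (fun i => algebraMap ℚ_[ℓ] (Om ℓ) (x i)) f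
  rank : RankR r (relations fun i => algebraMap ℚ_[ℓ] (Om ℓ) (x i))
  tan : IsTangent ℓ ((matRep (ρ ℓ)).comp s) (aeval (matRep (ρ ℓ) γ) f)

theorem SetupG.split (h : SetupG K Γ s N wt c r S P ρ) (ℓ : ℕ) [Fact ℓ.Prime]
    {R : Set (Fin N → ℤ)} (hspl : SplTyp S P r ℓ R) :
    ∃ v γ x b f, SplitDat ρ s S P r ℓ R v γ x b f := by
  obtain ⟨v, hv, hvℓ, x, hxinj, hx, hxR⟩ := hspl
  obtain ⟨γ, f, hc, hl, hr, ht⟩ := h.log ℓ hv hvℓ
    (z := fun i => algebraMap ℚ_[ℓ] (Om ℓ) (x i))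
    ((algebraMap ℚ_[ℓ] (Om ℓ)).injective.comp hxinj)
    (fun i => by rw [aeval_algebraMap_apply, hx, map_zero])
  have hGchar : (sumRep (ρ ℓ) γ).charpoly = (P v).map (algebraMap ℚ ℚ_[ℓ]) := by
    rw [ZL.sumRep_eq, charpoly_lin, hc]
  obtain ⟨b, hb⟩ := exists_eigenbasis (sumRep (ρ ℓ) γ) x hxinj
    (by rw [finrank_uu, Fintype.card_fin]) (fun i => by
      rw [Module.End.hasEigenvalue_iff_isRoot_charpoly, hGchar, IsRoot.def, ← coe_aeval_eq_eval]
      exact hx i)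
  exact ⟨v, γ, x, b, f, hv, hxinj, hx, hxR, hb, hl, hr, ht⟩

section basis

variable {k V I : Type} [Field k] [AddCommGroup V] [Module k V] [FiniteDimensional k V]
  [Fintype I] [DecidableEq I]

theorem aeval_basis (b : Basis I k V) {G : End k V} {x : I → k} (hb : ∀ i, G (b i) = x i • b i)
    (f : k[X]) (i : I) : aeval G f (b i) = aeval (x i) f • b i := by
  have h2 : ∀ j : ℕ, (G ^ j) (b i) = (x i) ^ j • b i := by
    intro j
    induction j with
    | zero => rw [pow_zero, pow_zero, one_smul, Module.End.one_apply]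
    | succ j ih => rw [pow_succ', Module.End.mul_apply, ih, map_smul, hb, smul_smul, pow_succ]
  induction f using Polynomial.induction_on' with
  | add p q hp hq => rw [map_add, map_add, LinearMap.add_apply, hp, hq, add_smul]
  | monomial n a =>
    rw [aeval_monomial, aeval_monomial, Module.End.mul_apply, h2, Module.algebraMap_end_apply,
      smul_smul]
    rfl

/-- a subspace which is stable under a diagonal endomorphism with different eigenvalues contains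
the components of its elements -/
theorem comp_mem (b : Basis I k V) {Z : End k V} {y : I → k} (hy : Injective y)
    (hb : ∀ i, Z (b i) = y i • b i) (U : Submodule k V) (hU : ∀ u ∈ U, Z u ∈ U) {u : V}
    (hu : u ∈ U) {i : I} (hi : b.repr u i ≠ 0) : b i ∈ U := by
  let f : k[X] := ∏ j ∈ Finset.univ.erase i, (X - C (y j))
  have h1 : ∀ p : k[X], ∀ u ∈ U, aeval Z p u ∈ U := by
    intro p
    induction p using Polynomial.induction_on' with
    | add p q hp hq =>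
      intro u hu
      rw [map_add, LinearMap.add_apply]
      exact U.add_mem (hp u hu) (hq u hu)
    | monomial n a =>
      intro u hu
      rw [aeval_monomial, Module.End.mul_apply, Module.algebraMap_end_apply]
      refine U.smul_mem _ ?_
      induction n with
      | zero => exact hu
      | succ n ih =>
        rw [pow_succ', Module.End.mul_apply]
        exact hU _ ih
  have h2 : ∀ j, aeval (y j) f = if j = i then ∏ l ∈ Finset.univ.erase i, (y i - y l) else 0 := by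
    intro j
    rw [map_prod]
    split_ifs with hj
    · subst hj
      exact Finset.prod_congr rfl fun l _ => by rw [map_sub, aeval_X, aeval_C]; rfl
    · refine Finset.prod_eq_zero (Finset.mem_erase.2 ⟨hj, Finset.mem_univ j⟩) ?_
      rw [map_sub, aeval_X, aeval_C]
      exact sub_self _
  have h3 : aeval Z f u = (b.repr u i * ∏ l ∈ Finset.univ.erase i, (y i - y l)) • b i := by
    conv_lhs => rw [← b.sum_repr u]
    rw [map_sum, Finset.sum_eq_single i]
    · rw [map_smul, aeval_basis b hb, h2, if_pos rfl, smul_smul]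
    · intro j _ hj
      rw [map_smul, aeval_basis b hb, h2, if_neg hj, zero_smul, smul_zero]
    · intro hi
      exact absurd (Finset.mem_univ i) hi
  have h4 : (b.repr u i * ∏ l ∈ Finset.univ.erase i, (y i - y l)) ≠ 0 := by
    refine mul_ne_zero hi ?_
    rw [Finset.prod_ne_zero_iff]
    intro l hl h0
    exact (Finset.mem_erase.1 hl).1 (hy (sub_eq_zero.1 h0)).symm
  have h5 := h1 f u hu
  rw [h3] at h5
  have h6 := U.smul_mem (b.repr u i * ∏ l ∈ Finset.univ.erase i, (y i - y l))⁻¹ h5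
  rwa [smul_smul, inv_mul_cancel₀ h4, one_smul] at h6

end basis

/-- the labels of a stable subspace are stable under `A` -/
theorem label_stable (h : SetupG K Γ s N wt c r S P ρ) (ℓ : ℕ) [Fact ℓ.Prime]
    {R : Set (Fin N → ℤ)} {T : Set (Equiv.Perm (Fin N))} (hT : GeneratesInvariably (relAut R) T)
    (hTA : T ⊆ relAut R) (hloc : ∀ a ∈ T, LocTyp S P r ℓ R a)
    {v₁ : HeightOneSpectrum (𝓞 K)} {γ₁ : Γ} {x : Fin N → ℚ_[ℓ]}
    {b : Basis (Fin N) ℚ_[ℓ] (∀ _ : Unit, Fin N → ℚ_[ℓ])} {f₁ : ℚ_[ℓ][X]}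
    (hs : SplitDat ρ s S P r ℓ R v₁ γ₁ x b f₁) {Δ : Subgroup Γ} (hΔ : Δ.FiniteIndex)
    {W : Submodule ℚ_[ℓ] (∀ _ : Unit, Fin N → ℚ_[ℓ])}
    (hW : ∀ δ ∈ Δ, ∀ x ∈ W, sumRep (ρ ℓ) δ x ∈ W) :
    ∀ a ∈ relAut R, ∀ i, b (a i) ∈ W ↔ b i ∈ W := by
  classical
  have hl₁ := hs.log
  have hW₁ := hl₁.stab hΔ hW
  have hXb : ∀ i, lin (aeval (matRep (ρ ℓ) γ₁) f₁) (b i) = aeval (x i) f₁ • b i := by
    intro i
    rw [lin_aeval, ← ZL.sumRep_eq]
    exact aeval_basis b hs.eig f₁ i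
  have hyinj : Injective fun i => aeval (x i) f₁ := by
    intro i j hij
    apply hl₁.yinj
    change aeval (algebraMap ℚ_[ℓ] (Om ℓ) (x i)) f₁ = aeval (algebraMap ℚ_[ℓ] (Om ℓ) (x j)) f₁
    rw [aeval_algebraMap_apply, aeval_algebraMap_apply]
    exact congrArg _ hij
  let D : Set (Fin N) := {i | aeval (aeval (algebraMap ℚ_[ℓ] (Om ℓ) (x i)) f₁)
    ((lin (aeval (matRep (ρ ℓ) γ₁) f₁)).restrict hW₁).charpoly = 0}
  have hbD : ∀ i, b i ∈ W ↔ i ∈ D := by
    intro i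
    have h0 : i ∈ D ↔ Module.End.HasEigenvalue ((lin (aeval (matRep (ρ ℓ) γ₁) f₁)).restrict hW₁)
        (aeval (x i) f₁) := by
      rw [Module.End.hasEigenvalue_iff_isRoot_charpoly, IsRoot.def, ← coe_aeval_eq_eval]
      change aeval (aeval (algebraMap ℚ_[ℓ] (Om ℓ) (x i)) f₁) _ = 0 ↔ _
      rw [aeval_algebraMap_apply, aeval_algebraMap_apply]
      exact map_eq_zero_iff _ (algebraMap ℚ_[ℓ] (Om ℓ)).injective
    rw [h0]
    constructor
    · intro hi
      refine Module.End.hasEigenvalue_of_hasEigenvector (x := ⟨b i, hi⟩)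
        ⟨Module.End.mem_eigenspace_iff.2 ?_, ?_⟩
      · apply Subtype.ext
        rw [LinearMap.restrict_coe_apply]
        exact hXb i
      · intro h1
        exact b.ne_zero i (congrArg Subtype.val h1)
    · intro hi
      obtain ⟨u, hu⟩ := hi.exists_hasEigenvector
      have h1 := congrArg (fun w : W => (w : ∀ _ : Unit, Fin N → ℚ_[ℓ])) hu.apply_eq_smul
      simp only [LinearMap.restrict_coe_apply, Submodule.coe_smul] at h1
      have h2 : ∃ j, b.repr (u : ∀ _ : Unit, Fin N → ℚ_[ℓ]) j ≠ 0 := by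
        by_contra hno
        push Not at hno
        apply hu.2
        apply Subtype.ext
        rw [← b.sum_repr (u : ∀ _ : Unit, Fin N → ℚ_[ℓ])]
        exact Finset.sum_eq_zero fun j _ => by rw [hno j, zero_smul]
      obtain ⟨j, hj⟩ := h2
      have h3 : b.repr (lin (aeval (matRep (ρ ℓ) γ₁) f₁) u) j = aeval (x j) f₁ * b.repr u j := by
        conv_lhs => rw [← b.sum_repr (u : ∀ _ : Unit, Fin N → ℚ_[ℓ])]
        rw [map_sum, map_sum, Finsupp.finsetSum_apply, Finset.sum_eq_single j]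
        · rw [map_smul, hXb, map_smul, map_smul, Basis.repr_self, Finsupp.smul_apply,
            Finsupp.smul_apply, Finsupp.single_eq_same, smul_eq_mul, smul_eq_mul, mul_one, mul_comm]
        · intro l _ hl
          rw [map_smul, hXb, map_smul, map_smul, Basis.repr_self, Finsupp.smul_apply,
            Finsupp.smul_apply, Finsupp.single_eq_of_ne (Ne.symm hl), smul_zero, smul_zero]
        · intro h
          exact absurd (Finset.mem_univ j) h
      rw [h1, map_smul, Finsupp.smul_apply, smul_eq_mul] at h3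
      have h4 : i = j := hyinj (mul_right_cancel₀ hj h3)
      rw [h4]
      exact comp_mem b hyinj hXb W hW₁ u.2 hj
  have hz₁R : relations (fun i => algebraMap ℚ_[ℓ] (Om ℓ) (x i)) = R := by
    rw [mrel_map (algebraMap ℚ_[ℓ] (Om ℓ)) x, hs.rel]
  have hD : ∀ a ∈ relAut R, ∀ i, a i ∈ D ↔ i ∈ D := by
    refine stable_of_conj (relAut R) hT hTA D fun a ha => ?_
    obtain ⟨v, hv, hvℓ, τ, z, hzinj, hz, hzR, hτ⟩ := hloc a ha
    obtain ⟨γ, f, hc, hl, hr, ht⟩ := h.log ℓ hv hvℓ hzinj hz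
    have hWa := hl.stab hΔ hW
    obtain ⟨π, hπ, hlab⟩ := compareG h ℓ hl₁ hl hs.tan ht hs.rank hr W hW₁ hWa
    have hπA : π ∈ relAut R := by
      intro n
      rw [← hz₁R, ← hπ n, hzR, hz₁R]
    refine ⟨π, hπA, fun i => ?_⟩
    have hlab' : ∀ i, i ∈ D ↔ aeval (aeval (z (π i)) f)
        ((lin (aeval (matRep (ρ ℓ) γ) f)).restrict hWa).charpoly = 0 := fun i => (hlab i).symm
    have hπ' : π ((π⁻¹ * a * π) i) = a (π i) := Equiv.apply_symm_apply π (a (π i))
    rw [hlab' i, hlab', hπ', ← hτ (π i)]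
    have h1 : aeval (τ (z (π i))) f = τ (aeval (z (π i)) f) :=
      Polynomial.aeval_algHom_apply (τ : Om ℓ →ₐ[ℚ_[ℓ]] Om ℓ) (z (π i)) f
    have h2 : ∀ (x : Om ℓ) (Q : ℚ_[ℓ][X]), aeval (τ x) Q = τ (aeval x Q) := fun x Q =>
      Polynomial.aeval_algHom_apply (τ : Om ℓ →ₐ[ℚ_[ℓ]] Om ℓ) x Q
    rw [h1, h2, map_eq_zero_iff _ τ.injective]
  intro a ha i
  rw [hbD, hbD]
  exact hD a ha i

end

end Pool.Agent.R931.ZM
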