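import Mathlib
import Pool.Agent.R931.ZM.Local
import Pool.Agent.R931.ZM.Defs

/-!
# Endomorphisms and invariant subspaces
-/

set_option autoImplicit false
set_option linter.unusedSectionVars false

namespace Pool.Agent.R931.ZM

open Function Polynomial Module NumberField IsDedekindDomain Pool.Agent.TH118.SG
  Pool.Agent.Y114.RM Pool.Agent.Y114.MU Pool.Agent.Y114.TF Pool.Agent.Y114.GF
  Pool.Agent.H204R3.GP Pool.Agent.R931.GD Pool.Agent.Y142.ZO Pool.Agent.Y142.ZI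
  Pool.Agent.Y142.SS Pool.Agent.R931.BD Pool.Agent.R931.ZL
open Pool.Agent.Y142.ZD (DistPow dist_of_nice)
open Pool.Agent.Y142.ZS (NiceP nice_of_p)
open Pool.Agent.Y497.ZO (Mt Aj)
open Pool.Agent.Y936.SS (Om)

section

variable {K : Type} [Field K] [NumberField K] {Γ : Type} [Group Γ] [TopologicalSpace Γ]
  [IsTopologicalGroup Γ] [CompactSpace Γ] {s : Gal(AlgebraicClosure K/K) →* Γ} {N : ℕ} {wt : ℤ}
  {c r : ℕ} {S : Set (HeightOneSpectrum (𝓞 K))} {P : HeightOneSpectrum (𝓞 K) → ℚ[X]}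
  {ρ : ∀ (ℓ : ℕ) [Fact ℓ.Prime], Rep1 Γ N ℓ}

/-- endomorphisms which commute with a subgroup of finite index are diagonal, with eigenvalues
which are constant on the orbits -/
theorem endo_diag (h : SetupG K Γ s N wt c r S P ρ) (ℓ : ℕ) [Fact ℓ.Prime]
    {R : Set (Fin N → ℤ)} {T : Set (Equiv.Perm (Fin N))} (hT : GeneratesInvariably (relAut R) T)
    (hTA : T ⊆ relAut R) (hloc : ∀ a ∈ T, LocTyp S P r ℓ R a)
    {v₁ : HeightOneSpectrum (𝓞 K)} {γ₁ : Γ} {x : Fin N → ℚ_[ℓ]}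
    {b : Basis (Fin N) ℚ_[ℓ] (∀ _ : Unit, Fin N → ℚ_[ℓ])} {f₁ : ℚ_[ℓ][X]}
    (hs : SplitDat ρ s S P r ℓ R v₁ γ₁ x b f₁) {Δ : Subgroup Γ} (hΔ : Δ.FiniteIndex)
    {Y : End ℚ_[ℓ] (∀ _ : Unit, Fin N → ℚ_[ℓ])}
    (hY : ∀ δ ∈ Δ, sumRep (ρ ℓ) δ * Y = Y * sumRep (ρ ℓ) δ) :
    (∀ i, Y (b i) = b.repr (Y (b i)) i • b i) ∧
      ∀ a ∈ relAut R, ∀ i, b.repr (Y (b (a i))) (a i) = b.repr (Y (b i)) i := by
  classical
  obtain ⟨M, hM, -, hMΔ⟩ := Subgroup.exists_pow_mem_of_index_ne_zero hΔ.index_ne_zero γ₁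
  set G : End ℚ_[ℓ] (∀ _ : Unit, Fin N → ℚ_[ℓ]) := sumRep (ρ ℓ) γ₁ with hG
  have hbM : ∀ i, (G ^ M) (b i) = x i ^ M • b i := by
    intro i
    have h2 : ∀ j : ℕ, (G ^ j) (b i) = (x i) ^ j • b i := by
      intro j
      induction j with
      | zero => rw [pow_zero, pow_zero, one_smul, Module.End.one_apply]
      | succ j ih => rw [pow_succ', Module.End.mul_apply, ih, map_smul, hs.eig, smul_smul, pow_succ]
    exact h2 M
  have hdistM : ∀ i j, x i ^ M = x j ^ M → i = j := by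
    intro i j hij
    apply hs.xinj
    have h1 := dist_of_nice hs.good.1 ℓ M (algebraMap ℚ_[ℓ] (AlgebraicClosure ℚ_[ℓ]) (x i))
      (algebraMap ℚ_[ℓ] (AlgebraicClosure ℚ_[ℓ]) (x j)) hM
      (by rw [aeval_algebraMap_apply, hs.xroot, map_zero])
      (by rw [aeval_algebraMap_apply, hs.xroot, map_zero])
      (by rw [← map_pow, hij, map_pow])
    exact (algebraMap ℚ_[ℓ] (AlgebraicClosure ℚ_[ℓ])).injective h1
  have hYM : (G ^ M) * Y = Y * (G ^ M) := by
    have h1 := hY _ hMΔ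
    rw [map_pow] at h1
    exact h1
  have hYb : ∀ i, Y (b i) = b.repr (Y (b i)) i • b i := by
    intro i
    have h1 : (G ^ M) (Y (b i)) = x i ^ M • Y (b i) := by
      have h2 := LinearMap.congr_fun hYM (b i)
      rw [Module.End.mul_apply, Module.End.mul_apply, hbM, map_smul] at h2
      exact h2
    have h2 : ∀ j, j ≠ i → b.repr (Y (b i)) j = 0 := by
      intro j hj
      have h3 : Y (b i) ∈ (G ^ M).maxGenEigenspace (x i ^ M) :=
        mem_gen.2 ⟨1, by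
          rw [pow_one, LinearMap.sub_apply, Module.algebraMap_end_apply, h1, sub_self]⟩
      rcases gen_eq b hbM h3 j with h4 | h4
      · exact h4
      · exact absurd (hdistM j i h4) hj
    conv_lhs => rw [← b.sum_repr (Y (b i))]
    rw [Finset.sum_eq_single i]
    · intro j _ hj
      rw [h2 j hj, zero_smul]
    · intro hi
      exact absurd (Finset.mem_univ i) hi
  refine ⟨hYb, fun a ha i => ?_⟩
  set lam := b.repr (Y (b i)) i with hlam
  have hstab : ∀ δ ∈ Δ, ∀ w ∈ LinearMap.ker (Y - algebraMap ℚ_[ℓ] _ lam),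
      sumRep (ρ ℓ) δ w ∈ LinearMap.ker (Y - algebraMap ℚ_[ℓ] _ lam) := by
    intro δ hδ w hw
    rw [LinearMap.mem_ker, LinearMap.sub_apply, Module.algebraMap_end_apply, sub_eq_zero] at hw ⊢
    have h2 := LinearMap.congr_fun (hY δ hδ) w
    rw [Module.End.mul_apply, Module.End.mul_apply] at h2
    rw [← h2, hw, map_smul]
  have h1 : b i ∈ LinearMap.ker (Y - algebraMap ℚ_[ℓ] _ lam) := by
    rw [LinearMap.mem_ker, LinearMap.sub_apply, Module.algebraMap_end_apply, hYb i, ← hlam,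
      sub_self]
  have h2 := (label_stable h ℓ hT hTA hloc hs hΔ hstab a ha i).2 h1
  rw [LinearMap.mem_ker, LinearMap.sub_apply, Module.algebraMap_end_apply, sub_eq_zero] at h2
  rw [h2, map_smul, Finsupp.smul_apply, Basis.repr_self, Finsupp.single_eq_same, smul_eq_mul,
    mul_one]

theorem local_endo (h : SetupG K Γ s N wt c r S P ρ) (ℓ : ℕ) [Fact ℓ.Prime]
    {R : Set (Fin N → ℤ)} {T : Set (Equiv.Perm (Fin N))} (hT : GeneratesInvariably (relAut R) T)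
    (hTA : T ⊆ relAut R) (hloc : ∀ a ∈ T, LocTyp S P r ℓ R a) (hspl : SplTyp S P r ℓ R)
    (Δ : Subgroup Γ) (hΔ : Δ.FiniteIndex) :
    finrank ℚ_[ℓ] (commutant (ρ ℓ) Δ) ≤ numOrbits R := by
  classical
  obtain ⟨v₁, γ₁, x, b, f₁, hs⟩ := h.split ℓ hspl
  have hconj : ∀ Y ∈ commutant (ρ ℓ) Δ, ∀ δ ∈ Δ,
      sumRep (ρ ℓ) δ * (uu ℓ N).conj Y = (uu ℓ N).conj Y * sumRep (ρ ℓ) δ := by
    intro Y hY δ hδ
    have h1 : sumRep (ρ ℓ) δ = (uu ℓ N).conj (ρ ℓ () δ) := sumRep_unit N (ρ ℓ ()) δ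
    have h2 := hY δ hδ
    rw [h1]
    change (uu ℓ N).conj (ρ ℓ () δ) ∘ₗ (uu ℓ N).conj Y = (uu ℓ N).conj Y ∘ₗ (uu ℓ N).conj (ρ ℓ () δ)
    rw [← LinearEquiv.conj_comp, ← LinearEquiv.conj_comp]
    exact congrArg _ h2
  let Q : Type := MulAction.orbitRel.Quotient (relAut R) (Fin N)
  have hQ : Finite Q := Quotient.finite _
  let _ : Fintype Q := Fintype.ofFinite Q
  let Φ : commutant (ρ ℓ) Δ →ₗ[ℚ_[ℓ]] (Q → ℚ_[ℓ]) :=
    { toFun := fun Y o => b.repr ((uu ℓ N).conj (Y : End ℚ_[ℓ] (Fin N → ℚ_[ℓ]))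
        (b (Quotient.out o))) (Quotient.out o)
      map_add' := by
        intro Y Z
        funext o
        rw [Submodule.coe_add, map_add, LinearMap.add_apply, map_add, Finsupp.add_apply]
        rfl
      map_smul' := by
        intro a Y
        funext o
        rw [Submodule.coe_smul, map_smul, LinearMap.smul_apply, map_smul, Finsupp.smul_apply]
        rfl }
  have hΦ : ∀ (Y : commutant (ρ ℓ) Δ) (o : Q), Φ Y o =
      b.repr ((uu ℓ N).conj (Y : End ℚ_[ℓ] (Fin N → ℚ_[ℓ])) (b (Quotient.out o))) (Quotient.out o) :=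
    fun Y o => rfl
  have hval : ∀ (Y : commutant (ρ ℓ) Δ) (i : Fin N),
      (uu ℓ N).conj (Y : End ℚ_[ℓ] (Fin N → ℚ_[ℓ])) (b i) = Φ Y (Quotient.mk _ i) • b i := by
    intro Y i
    obtain ⟨h1, h2⟩ := endo_diag h ℓ hT hTA hloc hs hΔ (hconj Y Y.2)
    let o : Q := Quotient.mk _ i
    have h4 : (MulAction.orbitRel (relAut R) (Fin N)) (Quotient.out o) i :=
      Quotient.exact (Quotient.out_eq o)
    rw [MulAction.orbitRel_apply] at h4
    obtain ⟨a, ha⟩ := h4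
    have h5 : (a : Equiv.Perm (Fin N)) i = Quotient.out o := ha
    have h6 := h2 a a.2 i
    rw [h5] at h6
    rw [h1 i, ← h6]
    rfl
  have hinj : Injective Φ := by
    intro Y Z hYZ
    apply Subtype.ext
    apply (uu ℓ N).conj.injective
    exact b.ext fun i => by rw [hval, hval, hYZ]
  have h1 := LinearMap.finrank_le_finrank_of_injective hinj
  rw [Module.finrank_fintype_fun_eq_card] at h1
  rw [numOrbits, Nat.card_eq_fintype_card]
  exact h1

theorem local_stable (h : SetupG K Γ s N wt c r S P ρ) (ℓ : ℕ) [Fact ℓ.Prime]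
    {R : Set (Fin N → ℤ)} {T : Set (Equiv.Perm (Fin N))} (hT : GeneratesInvariably (relAut R) T)
    (hTA : T ⊆ relAut R) (hloc : ∀ a ∈ T, LocTyp S P r ℓ R a) (hspl : SplTyp S P r ℓ R)
    (Δ : Subgroup Γ) (hΔ : Δ.FiniteIndex) :
    (stableSubspaces (ρ ℓ) Δ).encard ≤ 2 ^ numOrbits R := by
  classical
  obtain ⟨v₁, γ₁, x, b, f₁, hs⟩ := h.split ℓ hspl
  let Q : Type := MulAction.orbitRel.Quotient (relAut R) (Fin N)
  have hQ : Finite Q := Quotient.finite _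
  let _ : Fintype Q := Fintype.ofFinite Q
  let up : Submodule ℚ_[ℓ] (Fin N → ℚ_[ℓ]) → Submodule ℚ_[ℓ] (∀ _ : Unit, Fin N → ℚ_[ℓ]) :=
    fun W => W.comap ((uu ℓ N).symm : _ →ₗ[ℚ_[ℓ]] _)
  have hup : ∀ W x, x ∈ up W ↔ x () ∈ W := fun W x => Iff.rfl
  have hupW : ∀ W ∈ stableSubspaces (ρ ℓ) Δ, ∀ δ ∈ Δ, ∀ x ∈ up W, sumRep (ρ ℓ) δ x ∈ up W := by
    intro W hW δ hδ x hx
    exact hW δ hδ _ hx
  have hyinj : Injective fun i => aeval (x i) f₁ := by
    intro i j hij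
    apply hs.log.yinj
    change aeval (algebraMap ℚ_[ℓ] (Om ℓ) (x i)) f₁ = aeval (algebraMap ℚ_[ℓ] (Om ℓ) (x j)) f₁
    rw [aeval_algebraMap_apply, aeval_algebraMap_apply]
    exact congrArg _ hij
  have hXb : ∀ i, lin (aeval (matRep (ρ ℓ) γ₁) f₁) (b i) = aeval (x i) f₁ • b i := by
    intro i
    rw [lin_aeval, ← ZL.sumRep_eq]
    exact aeval_basis b hs.eig f₁ i
  let F : stableSubspaces (ρ ℓ) Δ → Set Q := fun W => {o | b (Quotient.out o) ∈ up W}
  have hmem : ∀ (W : stableSubspaces (ρ ℓ) Δ) (i : Fin N),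
      b i ∈ up W ↔ (Quotient.mk _ i : Q) ∈ F W := by
    intro W i
    have h4 : (MulAction.orbitRel (relAut R) (Fin N)) (Quotient.out (Quotient.mk _ i : Q)) i :=
      Quotient.exact (Quotient.out_eq _)
    rw [MulAction.orbitRel_apply] at h4
    obtain ⟨a, ha⟩ := h4
    have h5 : (a : Equiv.Perm (Fin N)) i = Quotient.out (Quotient.mk _ i : Q) := ha
    change _ ↔ b (Quotient.out (Quotient.mk _ i : Q)) ∈ up W
    rw [← h5]
    exact (label_stable h ℓ hT hTA hloc hs hΔ (hupW W W.2) a a.2 i).symm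
  have hle : ∀ W₁ W₂ : stableSubspaces (ρ ℓ) Δ, F W₁ = F W₂ → ∀ w, w ∈ up W₁ → w ∈ up W₂ := by
    intro W₁ W₂ hF w hw
    rw [← b.sum_repr w]
    refine Submodule.sum_mem _ fun i _ => ?_
    by_cases hi : b.repr w i = 0
    · rw [hi, zero_smul]
      exact Submodule.zero_mem _
    · refine Submodule.smul_mem _ _ ?_
      have h1 := comp_mem b hyinj hXb (up W₁) (hs.log.stab hΔ (hupW W₁ W₁.2)) hw hi
      rw [hmem] at h1 ⊢
      rw [← hF]
      exact h1
  have hinj : Injective F := by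
    intro W₁ W₂ hF
    apply Subtype.ext
    ext w
    exact ⟨fun hw => hle W₁ W₂ hF (fun _ => w) hw, fun hw => hle W₂ W₁ hF.symm (fun _ => w) hw⟩
  have hfin : Finite (stableSubspaces (ρ ℓ) Δ) := Finite.of_injective F hinj
  have h1 := Nat.card_le_card_of_injective F hinj
  have h2 : Nat.card (Set Q) = 2 ^ numOrbits R := by
    rw [Nat.card_eq_fintype_card, Fintype.card_set, numOrbits, Nat.card_eq_fintype_card]
  rw [h2] at h1
  rw [← (Set.toFinite (stableSubspaces (ρ ℓ) Δ)).cast_ncard_eq]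
  have h3 : (stableSubspaces (ρ ℓ) Δ).ncard ≤ 2 ^ numOrbits R := by
    rw [← Nat.card_coe_set_eq]
    exact h1
  exact_mod_cast h3

end

end Pool.Agent.R931.ZM
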