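import Mathlib
import Pool.Agent.R931.ZM.Local
import Pool.Agent.R931.ZM.Defs
import Pool.Agent.Y288.SS.Conj
import Pool.Agent.Y142.SS.Top

/-!
# Polarized systems: semisimplicity
-/

set_option autoImplicit false
set_option linter.unusedSectionVars false

namespace Pool.Agent.R931.ZM

open Function Polynomial Module NumberField IsDedekindDomain Pool.Agent.TH118.SG
  Pool.Agent.Y114.RM Pool.Agent.Y114.MU Pool.Agent.Y114.TF Pool.Agent.Y114.GF
  Pool.Agent.H204R3.GP Pool.Agent.R931.GD Pool.Agent.Y142.ZO Pool.Agent.Y142.ZI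
  Pool.Agent.Y142.SS Pool.Agent.R931.BD Pool.Agent.R931.ZL
open Pool.Agent.Y142.ZD (DistPow dist_of_nice)
open Pool.Agent.Y142.ZS (NiceP nice_of_p)
open Pool.Agent.Y497.ZO (Mt Aj)
open Pool.Agent.Y936.SS (Om)

section

variable {K : Type} [Field K] [NumberField K] {Γ : Type} [Group Γ] [TopologicalSpace Γ]
  [IsTopologicalGroup Γ] [CompactSpace Γ] {s : Gal(AlgebraicClosure K/K) →* Γ} {N : ℕ} {wt : ℤ}
  {c r : ℕ} {S : Set (HeightOneSpectrum (𝓞 K))} {P : HeightOneSpectrum (𝓞 K) → ℚ[X]}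
  {ρ : ∀ (ℓ : ℕ) [Fact ℓ.Prime], Rep1 Γ N ℓ}

/-- complex conjugation as an automorphism of the relations -/
theorem dual_perm (h : SetupG K Γ s N wt c r S P ρ) {ℓ : ℕ} [Fact ℓ.Prime]
    {v : HeightOneSpectrum (𝓞 K)} (hv : GoodPl S P r v) {x : Fin N → ℚ_[ℓ]} (hinj : Injective x)
    (hx : ∀ i, aeval (x i) ((P v).map (algebraMap ℚ ℚ_[ℓ])) = 0) {R : Set (Fin N → ℤ)}
    (hR : relations x = R) :
    ∃ a ∈ relAut R, ∀ i, x (a i) * x i = (((q v : ℚ) ^ wt : ℚ) : ℚ_[ℓ]) := by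
  obtain ⟨κ, cc, hcc⟩ := Pool.Agent.Y288.SS.t
  obtain ⟨ι⟩ := emb ℓ
  have hlift : ∀ i, ∃ y : QQ, aeval y (P v) = 0 ∧ ι y = algebraMap ℚ_[ℓ] (Om ℓ) (x i) := fun i =>
    lift_root ℓ ι hv.1.2.1.ne_zero (by rw [aeval_algebraMap_apply, hx, map_zero])
  choose y hy hyx using hlift
  have hyinj : Injective y := by
    intro i j hij
    apply hinj
    apply (algebraMap ℚ_[ℓ] (Om ℓ)).injective
    rw [← hyx, ← hyx, hij]
  have hyR : relations y = R := by
    rw [← mrel_map ι y, show (fun i => ι (y i)) = fun i => algebraMap ℚ_[ℓ] (Om ℓ) (x i) from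
      funext hyx, mrel_map (algebraMap ℚ_[ℓ] (Om ℓ)) x, hR]
  obtain ⟨a, ha⟩ := exists_equiv (y := fun i => cc (y i)) (cc.injective.comp hyinj) (u := y)
    (fun i => exhaust hv.1.2.1.ne_zero (h.monic hv.1.1).2 hyinj hy (aeval_aut _ (hy i))) rfl
  refine ⟨a, mem_autR_of hyR ?_, fun i => ?_⟩
  · rw [show (fun i => y (a i)) = fun i => cc (y i) from funext ha]
    exact (mrel_map (cc : QQ ≃ₐ[ℚ] QQ).toRingEquiv.toRingHom y).trans hyR
  · have h0 : y i ≠ 0 := h.ne_zero hv.1.1 (hy i)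
    have h1 : cc (y i) = (((q v : ℚ) ^ wt : ℚ) : QQ) / y i := by
      refine conj_root hcc (fun z hz => ?_) (hy i) h0
      rw [h.pure hv.1.1 z hz]
      push_cast
      rfl
    have h2 : y (a i) * y i = (((q v : ℚ) ^ wt : ℚ) : QQ) := by
      rw [ha, h1, div_mul_cancel₀ _ h0]
    apply (algebraMap ℚ_[ℓ] (Om ℓ)).injective
    rw [map_mul, ← hyx, ← hyx, ← map_mul, h2, map_ratCast, map_ratCast]

/-- the bilinear form -/
theorem Polarized.bilin {ℓ : ℕ} [Fact ℓ.Prime] {ρ : Rep1 Γ N ℓ} (hpol : Polarized ρ) :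
    ∃ B : (Fin N → ℚ_[ℓ]) →ₗ[ℚ_[ℓ]] (Fin N → ℚ_[ℓ]) →ₗ[ℚ_[ℓ]] ℚ_[ℓ],
    (∀ x, (∀ y, B x y = 0) → x = 0) ∧ ((∀ x y, B x y = B y x) ∨ ∀ x, B x x = 0) ∧
    ∀ γ, ∃ c, ∀ x y, B (ρ () γ x) (ρ () γ y) = c * B x y := by
  classical
  obtain ⟨B, ⟨hdet, hsym⟩, hsim⟩ := hpol
  have hB : ∀ x y, Matrix.toLinearMap₂' ℚ_[ℓ] B x y = x ⬝ᵥ B.mulVec y := fun x y =>
    Matrix.toLinearMap₂'_apply' B x y
  have htr : ∀ (M : Matrix (Fin N) (Fin N) ℚ_[ℓ]) (x y : Fin N → ℚ_[ℓ]),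
      x ⬝ᵥ M.transpose.mulVec y = y ⬝ᵥ M.mulVec x := by
    intro M x y
    rw [Matrix.mulVec_transpose, dotProduct_comm, Matrix.dotProduct_mulVec]
  refine ⟨Matrix.toLinearMap₂' ℚ_[ℓ] B, fun x hx => ?_, ?_, fun γ => ?_⟩
  · have h1 : B.transpose.mulVec x = 0 := by
      refine dotProduct_eq_zero _ fun y => ?_
      rw [dotProduct_comm, htr, ← hB]
      exact hx y
    exact Matrix.eq_zero_of_mulVec_eq_zero (by rwa [Matrix.det_transpose]) h1
  · rcases hsym with h1 | h1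
    · left
      intro x y
      rw [hB, hB, ← htr, h1]
    · right
      intro x
      have h2 := htr B x x
      rw [h1, Matrix.neg_mulVec, dotProduct_neg] at h2
      rw [hB]
      exact self_eq_neg.1 h2.symm
  · obtain ⟨c, hc⟩ := hsim γ
    refine ⟨c, fun x y => ?_⟩
    have h1 : ∀ z, ρ () γ z = (LinearMap.toMatrix' (ρ () γ)).mulVec z := fun z => by
      rw [← Matrix.toLin'_apply, Matrix.toLin'_toMatrix']
    set M := LinearMap.toMatrix' (ρ () γ) with hM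
    rw [hB, hB, h1, h1]
    have h2 : M.mulVec x ⬝ᵥ B.mulVec (M.mulVec y) = x ⬝ᵥ (M.transpose * B * M).mulVec y := by
      rw [← Matrix.mulVec_mulVec, ← Matrix.mulVec_mulVec, htr, dotProduct_comm]
    rw [h2, hc, Matrix.smul_mulVec, dotProduct_smul, smul_eq_mul]

theorem local_semi (h : SetupG K Γ s N wt c r S P ρ) (ℓ : ℕ) [Fact ℓ.Prime]
    {R : Set (Fin N → ℤ)} {T : Set (Equiv.Perm (Fin N))} (hT : GeneratesInvariably (relAut R) T)
    (hTA : T ⊆ relAut R) (hloc : ∀ a ∈ T, LocTyp S P r ℓ R a) (hspl : SplTyp S P r ℓ R)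
    (hpol : Polarized (ρ ℓ)) : Semisimple (ρ ℓ) := by
  classical
  obtain ⟨v₁, γ₁, x, b, f₁, hs⟩ := h.split ℓ hspl
  obtain ⟨a, ha, hax⟩ := dual_perm h hs.good hs.xinj hs.xroot hs.rel
  set q₁ : ℚ_[ℓ] := (((q v₁ : ℚ) ^ wt : ℚ) : ℚ_[ℓ]) with hq₁
  obtain ⟨B₀, hB₀, hsym, hsim⟩ := hpol.bilin
  let B : LinearMap.BilinForm ℚ_[ℓ] (∀ _ : Unit, Fin N → ℚ_[ℓ]) :=
    B₀.compl₁₂ (LinearMap.proj ()) (LinearMap.proj ())
  have hB : ∀ x y, B x y = B₀ (x ()) (y ()) := fun x y => rfl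
  have hrefl : B.IsRefl := by
    intro x y hxy
    rw [hB] at hxy ⊢
    rcases hsym with h1 | h1
    · rw [h1]
      exact hxy
    · have h2 := h1 (x () + y ())
      rw [map_add, LinearMap.map_add₂, LinearMap.map_add₂, h1, h1, hxy, zero_add, zero_add,
        add_zero] at h2
      exact h2
  have hnd : ∀ x, (∀ y, B x y = 0) → x = 0 := by
    intro x hx
    funext u
    cases u
    exact hB₀ _ fun y => hx fun _ => y
  have hsimB : ∀ γ, ∃ c, ∀ x y, B (sumRep (ρ ℓ) γ x) (sumRep (ρ ℓ) γ y) = c * B x y := by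
    intro γ
    obtain ⟨c, hc⟩ := hsim γ
    exact ⟨c, fun x y => hc _ _⟩
  obtain ⟨c₁, hc₁⟩ := hsimB γ₁
  have hne : ∀ i j, B (b i) (b j) ≠ 0 → x i * x j = c₁ := by
    intro i j hij
    have h1 := hc₁ (b i) (b j)
    rw [hs.eig, hs.eig, map_smul, LinearMap.map_smul₂, smul_eq_mul, smul_eq_mul,
      ← mul_assoc, mul_comm (x j)] at h1
    exact mul_right_cancel₀ hij h1
  have hex : ∀ i, ∃ j, B (b i) (b j) ≠ 0 := by
    intro i
    by_contra hno
    push Not at hno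
    refine b.ne_zero i (hnd _ fun y => ?_)
    rw [← b.sum_repr y, map_sum]
    exact Finset.sum_eq_zero fun j _ => by rw [map_smul, hno, smul_zero]
  have hx0 : ∀ i, x i ≠ 0 := by
    intro i h0
    have h1 := ne_zero_of_root (ρ ℓ) γ₁ (hs.log.zroot i)
    exact h1 (by rw [h0, map_zero])
  have hN : 0 < N := h.pos
  have hpow : c₁ ^ N = q₁ ^ N := by
    choose ψ hψ using hex
    have hψx : ∀ i, x i * x (ψ i) = c₁ := fun i => hne i _ (hψ i)
    have hψinj : Injective ψ := by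
      intro i j hij
      apply hs.xinj
      have h1 := hψx i
      rw [hij, ← hψx j] at h1
      exact mul_right_cancel₀ (hx0 _) h1
    have hψb : Bijective ψ := Finite.injective_iff_bijective.1 hψinj
    have e1 : ∏ i, x (ψ i) = ∏ i, x i := hψb.prod_comp x
    have e2 : ∏ i, x (a i) = ∏ i, x i := Equiv.prod_comp a x
    have h1 : ∏ i, (x i * x (ψ i)) = c₁ ^ N := by
      rw [Finset.prod_congr rfl fun i _ => hψx i, Finset.prod_const, Finset.card_univ,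
        Fintype.card_fin]
    have h2 : ∏ i, (x (a i) * x i) = q₁ ^ N := by
      rw [Finset.prod_congr rfl fun i _ => hax i, Finset.prod_const, Finset.card_univ,
        Fintype.card_fin]
    rw [← h1, ← h2, Finset.prod_mul_distrib, Finset.prod_mul_distrib, e1, e2]
  have hdual : ∀ i j, B (b i) (b j) ≠ 0 → j = a i := by
    intro i j hij
    apply hs.xinj
    have h1 : x j ^ N = x (a i) ^ N := by
      have h2 : (x i * x j) ^ N = (x (a i) * x i) ^ N := by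
        rw [hne i j hij, hax, hpow]
      rw [mul_pow, mul_pow, mul_comm (x (a i) ^ N)] at h2
      exact mul_left_cancel₀ (pow_ne_zero _ (hx0 i)) h2
    have h3 := dist_of_nice hs.good.1 ℓ N (algebraMap ℚ_[ℓ] (AlgebraicClosure ℚ_[ℓ]) (x j))
      (algebraMap ℚ_[ℓ] (AlgebraicClosure ℚ_[ℓ]) (x (a i))) hN
      (by rw [aeval_algebraMap_apply, hs.xroot, map_zero])
      (by rw [aeval_algebraMap_apply, hs.xroot, map_zero])
      (by rw [← map_pow, h1, map_pow])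
    exact (algebraMap ℚ_[ℓ] (AlgebraicClosure ℚ_[ℓ])).injective h3
  intro Δ hΔ W hW
  have hWo : ∀ δ ∈ Δ, ∀ y ∈ B.orthogonal W, sumRep (ρ ℓ) δ y ∈ B.orthogonal W := by
    intro δ hδ y hy
    rw [LinearMap.BilinForm.mem_orthogonal_iff] at hy ⊢
    intro w hw
    obtain ⟨c, hc⟩ := hsimB δ
    have h1 := hc (sumRep (ρ ℓ) δ⁻¹ w) y
    rw [← Module.End.mul_apply, ← map_mul, mul_inv_cancel, map_one, Module.End.one_apply] at h1
    change B w (sumRep (ρ ℓ) δ y) = 0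
    rw [h1, hy _ (hW _ (Δ.inv_mem hδ) w hw), mul_zero]
  refine ⟨B.orthogonal W, hWo, (LinearMap.BilinForm.isCompl_orthogonal_iff_disjoint hrefl).2 ?_⟩
  rw [Submodule.disjoint_def]
  intro u hu hu'
  by_contra hu0
  obtain ⟨i, hi⟩ : ∃ i, b.repr u i ≠ 0 := by
    by_contra hno
    push Not at hno
    apply hu0
    rw [← b.sum_repr u]
    exact Finset.sum_eq_zero fun j _ => by rw [hno j, zero_smul]
  have hyinj : Injective fun i => aeval (x i) f₁ := by
    intro i j hij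
    apply hs.log.yinj
    change aeval (algebraMap ℚ_[ℓ] (Om ℓ) (x i)) f₁ = aeval (algebraMap ℚ_[ℓ] (Om ℓ) (x j)) f₁
    rw [aeval_algebraMap_apply, aeval_algebraMap_apply]
    exact congrArg _ hij
  have hXb : ∀ i, lin (aeval (matRep (ρ ℓ) γ₁) f₁) (b i) = aeval (x i) f₁ • b i := by
    intro i
    rw [lin_aeval, ← ZL.sumRep_eq]
    exact aeval_basis b hs.eig f₁ i
  have h1 : b i ∈ W := comp_mem b hyinj hXb W (hs.log.stab hΔ hW) hu hi
  have h2 : b i ∈ B.orthogonal W := comp_mem b hyinj hXb _ (hs.log.stab hΔ hWo) hu' hi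
  have h3 : b (a i) ∈ W := (label_stable h ℓ hT hTA hloc hs hΔ hW a ha i).2 h1
  rw [LinearMap.BilinForm.mem_orthogonal_iff] at h2
  refine b.ne_zero i (hnd _ fun y => ?_)
  rw [← b.sum_repr y, map_sum]
  refine Finset.sum_eq_zero fun j _ => ?_
  rw [map_smul]
  by_cases hj : B (b i) (b j) = 0
  · rw [hj, smul_zero]
  · have h4 := hdual i j hj
    rw [h4]
    have h5 : B (b i) (b (a i)) = 0 := hrefl _ _ (h2 _ h3)
    rw [h5, smul_zero]

end

end Pool.Agent.R931.ZM
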