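import Mathlib
import Pool.Agent.R931.ZM.Semi
import Pool.Agent.R931.ZM.Endo
import Pool.Agent.R931.ZL.Fin

/-!
# The zero-one law without motivic group
-/

set_option autoImplicit false
set_option linter.unusedSectionVars false
set_option linter.unusedVariables false

namespace Pool.Agent.R931.ZM

open Function Polynomial Module NumberField IsDedekindDomain Pool.Agent.TH118.SG
  Pool.Agent.Y114.RM Pool.Agent.Y114.MU Pool.Agent.Y114.TF Pool.Agent.Y114.GF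
  Pool.Agent.H204R3.GP Pool.Agent.R931.GD Pool.Agent.Y142.ZO Pool.Agent.Y142.ZI
  Pool.Agent.Y142.SS Pool.Agent.R931.BD Pool.Agent.R931.ZL
open Pool.Agent.Y142.ZD (DistPow dist_of_nice)
open Pool.Agent.Y142.ZS (NiceP nice_of_p S_SPL)
open Pool.Agent.Y936.SS (Om)

section

variable {K : Type} [Field K] [NumberField K] {Γ : Type} [Group Γ] [TopologicalSpace Γ]
  [IsTopologicalGroup Γ] [CompactSpace Γ] {s : Gal(AlgebraicClosure K/K) →* Γ} {N : ℕ} {wt : ℤ}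
  {c r : ℕ} {S : Set (HeightOneSpectrum (𝓞 K))} {P : HeightOneSpectrum (𝓞 K) → ℚ[X]}
  {ρ : ∀ (ℓ : ℕ) [Fact ℓ.Prime], Rep1 Γ N ℓ}

/-- the primes where a type does not occur have density zero -/
theorem density_typ (h : SetupG K Γ s N wt c r S P ρ) (hLOC : S_LOC) (hINT : S_INT)
    (hDENS2 : S_DENS2) (hCF : S_CF)
    (htop : Subgroup.closure (⋃ u : {u // GoodPl S P r u}, Fix (P u)) = ⊤)
    (R : Set (Fin N → ℤ)) (a : Equiv.Perm (Fin N)) {v₁ : HeightOneSpectrum (𝓞 K)}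
    (hv₁ : GoodPl S P r v₁) {w : GK ℚ} (hw : w ∈ Typ R a (P v₁)) :
    Pool.Agent.Y142.ZI.DensityZero {ℓ | ∃ _ : Fact ℓ.Prime, ¬ LocTyp S P r ℓ R a} := by
  refine densityR h hLOC hINT hDENS2 htop (typ_isClass R a) hv₁ hw _
    (fun ℓ hℓ => hℓ.1.out) fun v hv => ?_
  obtain ⟨b, hb⟩ := hCF (P v) (h.monic hv.1.1).1 hv.1.2.2.1
  refine ⟨max b (Ideal.absNorm v.asIdeal), ?_⟩
  rintro ℓ ⟨hp, hno⟩ hbℓ σ hσ hmem
  apply hno
  obtain ⟨ι, τ, σ', -, hτ, hσ'⟩ := hb ℓ ((le_max_left _ _).trans_lt hbℓ) hp σ hσ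
  obtain ⟨x, hinj, hx, hR, hxa⟩ := hmem
  refine ⟨v, hv, not_mem_of_lt v hp.out ((le_max_right _ _).trans_lt hbℓ), τ, fun i => ι (x i),
    ι.injective.comp hinj, fun i => push_root ℓ ι (hx i), ?_, fun i => ?_⟩
  · rw [mrel_map, hR]
  · rw [hτ, hσ' _ (hx i), hxa]

theorem density_spl (h : SetupG K Γ s N wt c r S P ρ) (hLOC : S_LOC) (hINT : S_INT)
    (hDENS2 : S_DENS2) (hSPL : S_SPL)
    (htop : Subgroup.closure (⋃ u : {u // GoodPl S P r u}, Fix (P u)) = ⊤)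
    (R : Set (Fin N → ℤ)) {v₁ : HeightOneSpectrum (𝓞 K)}
    (hv₁ : GoodPl S P r v₁) {w : GK ℚ} (hw : w ∈ Typ R 1 (P v₁)) :
    Pool.Agent.Y142.ZI.DensityZero {ℓ | ∃ _ : Fact ℓ.Prime, ¬ SplTyp (N := N) S P r ℓ R} := by
  refine densityR h hLOC hINT hDENS2 htop (typ_isClass R 1) hv₁ hw _
    (fun ℓ hℓ => hℓ.1.out) fun v hv => ?_
  obtain ⟨b, hb⟩ := hSPL (P v) (h.monic hv.1.1).1 hv.1.2.2.1
  refine ⟨max b (Ideal.absNorm v.asIdeal), ?_⟩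
  rintro ℓ ⟨hp, hno⟩ hbℓ σ hσ hmem
  apply hno
  obtain ⟨x, hinj, hx, hR, hxa⟩ := hmem
  have hfix : ∀ y : QQ, aeval y (P v) = 0 → σ y = y := by
    intro y hy
    obtain ⟨i, rfl⟩ := exhaust (h.monic hv.1.1).1.ne_zero (h.monic hv.1.1).2 hinj hx hy
    exact hxa i
  have hsplit := hb ℓ ((le_max_left _ _).trans_lt hbℓ) hp σ hσ hfix
  obtain ⟨ι⟩ := emb ℓ
  have hQ0 : (P v).map (algebraMap ℚ ℚ_[ℓ]) ≠ 0 := ((h.monic hv.1.1).1.map _).ne_zero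
  have hw : ∀ i, ∃ y : ℚ_[ℓ], algebraMap ℚ_[ℓ] (AlgebraicClosure ℚ_[ℓ]) y = ι (x i) := by
    intro i
    have h1 := push_root ℓ ι (hx i)
    have h2 : ι (x i) ∈ (((P v).map (algebraMap ℚ ℚ_[ℓ])).map
        (algebraMap ℚ_[ℓ] (AlgebraicClosure ℚ_[ℓ]))).roots := by
      rw [mem_roots ((Polynomial.map_ne_zero_iff
        (algebraMap ℚ_[ℓ] (AlgebraicClosure ℚ_[ℓ])).injective).2 hQ0), IsRoot.def,
        eval_map_algebraMap]
      exact h1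
    rw [hsplit.roots_map] at h2
    obtain ⟨y, -, hy⟩ := Multiset.mem_map.1 h2
    exact ⟨y, hy⟩
  choose y hy using hw
  have hyf : (fun i => algebraMap ℚ_[ℓ] (AlgebraicClosure ℚ_[ℓ]) (y i)) = fun i => ι (x i) :=
    funext hy
  refine ⟨v, hv, not_mem_of_lt v hp.out ((le_max_right _ _).trans_lt hbℓ), y, ?_, fun i => ?_, ?_⟩
  · intro i j hij
    apply hinj
    apply ι.injective
    rw [← hy, ← hy, hij]
  · apply (algebraMap ℚ_[ℓ] (AlgebraicClosure ℚ_[ℓ])).injective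
    rw [map_zero, ← aeval_algebraMap_apply, hy]
    exact push_root ℓ ι (hx i)
  · rw [← mrel_map (algebraMap ℚ_[ℓ] (AlgebraicClosure ℚ_[ℓ])) y, hyf, mrel_map, hR]

/-- the zero-one law, global form -/
theorem main_global (h : SetupG K Γ s N wt c r S P ρ) (R : Set (Fin N → ℤ))
    {J : Type} [Finite J]
    {T : J → Set (Equiv.Perm (Fin N))} (hne : ∃ j, (T j).Nonempty)
    (hT : GeneratesInvariably (relAut R) (⋃ j, T j)) (hT' : SeparatedModulo (relAut R) T)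
    (σ₀ : J → GK ℚ) (hσ₀ : ∀ j, ∀ a ∈ T j, ∃ v, GoodPl S P r v ∧ σ₀ j ∈ Typ R a (P v)) :
    (⋃ j, T j) ⊆ relAut R ∧ Pool.Agent.Y142.ZI.DensityZero {ℓ | ∃ _ : Fact ℓ.Prime,
      ¬ (SplTyp (N := N) S P r ℓ R ∧ ∀ a ∈ ⋃ j, T j, LocTyp S P r ℓ R a)} := by
  classical
  have hINT : S_INT := Y484.ZI.t1
  have hCHEB : S_CHEB := Y726.ZI.t1
  have hDENS2 : S_DENS2 := Y681.ZI.t hCHEB
  have hLF : S_LF := Y255.SS.t
  have hCF : S_CF := Y297.SS.t hLF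
  have hLOC : S_LOC := Y708.SS.Loc.t hCF
  have hSPL : S_SPL := Y674.ZS.t
  have htop := closure_top h hLOC R hne hT hT' σ₀ hσ₀
  have hTA : (⋃ j, T j) ⊆ relAut R := fun a ha => by
    obtain ⟨j, hj⟩ := Set.mem_iUnion.1 ha
    obtain ⟨v, hv, hw⟩ := hσ₀ j a hj
    exact typ_mem_aut hw
  let T' : Set (Equiv.Perm (Fin N)) := ⋃ j, T j
  let _ : Fintype T' := Fintype.ofFinite _
  -- the bad primes
  have hbad1 : ∀ a : T',
      Pool.Agent.Y142.ZI.DensityZero {ℓ | ∃ _ : Fact ℓ.Prime, ¬ LocTyp S P r ℓ R a} := by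
    rintro ⟨a, ha⟩
    obtain ⟨j, hj⟩ := Set.mem_iUnion.1 ha
    obtain ⟨v, hv, hw⟩ := hσ₀ j a hj
    exact density_typ h hLOC hINT hDENS2 hCF htop R a hv hw
  have hbad2 : Pool.Agent.Y142.ZI.DensityZero
      {ℓ | ∃ _ : Fact ℓ.Prime, ¬ SplTyp (N := N) S P r ℓ R} := by
    obtain ⟨j, a, ha⟩ := hne
    obtain ⟨v, hv, x, hinj, hx, hR, -⟩ := hσ₀ j a ha
    exact density_spl h hLOC hINT hDENS2 hSPL htop R hv (w := 1) ⟨x, hinj, hx, hR, fun i => rfl⟩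
  have hbad3 : ∀ A : Finset T', Pool.Agent.Y142.ZI.DensityZero
      (⋃ a ∈ A, {ℓ | ∃ _ : Fact ℓ.Prime, ¬ LocTyp S P r ℓ R (a : Equiv.Perm (Fin N))}) := by
    intro A
    induction A using Finset.induction_on with
    | empty =>
      simp only [Finset.notMem_empty, Set.iUnion_of_empty, Set.iUnion_empty]
      exact densityZero_finite Set.finite_empty
    | insert a A _ ih =>
      rw [Finset.set_biUnion_insert]
      exact (hbad1 a).union ih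
  refine ⟨hTA, Y142.ZI.DensityZero.mono ((hbad3 Finset.univ).union hbad2) ?_⟩
  rintro ℓ ⟨hp, hno⟩
  by_contra hnot
  rw [Set.mem_union, not_or] at hnot
  obtain ⟨hn1, hn2⟩ := hnot
  apply hno
  constructor
  · by_contra hcon
    exact hn2 ⟨hp, hcon⟩
  · intro a ha
    by_contra hcon
    exact hn1 (Set.mem_iUnion₂.2 ⟨⟨a, ha⟩, Finset.mem_univ _, hp, hcon⟩)

/-- the types at one prime give global types -/
theorem main_local (h : SetupG K Γ s N wt c r S P ρ) (R : Set (Fin N → ℤ)) (hR : RankGE r R)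
    (T : Set (Equiv.Perm (Fin N)))
    (ℓ₀ : ℕ) [Fact ℓ₀.Prime] (τ₀ : Gal(PadicAlgCl ℓ₀/ℚ_[ℓ₀]))
    (hτ₀ : ∀ a ∈ T, ∃ σ : Gal(AlgebraicClosure K/K), HasType (ρ ℓ₀) (s σ) R τ₀ a) :
    ∃ σ₀ : GK ℚ, ∀ a ∈ T, ∃ v, GoodPl S P r v ∧ σ₀ ∈ Typ R a (P v) := by
  obtain ⟨ι⟩ := emb ℓ₀
  obtain ⟨σ₀, hσ₀⟩ := restrict_aut ι τ₀
  refine ⟨σ₀, fun a ha => ?_⟩
  obtain ⟨σ, z, hz', hpow, hzR, hτ⟩ := hτ₀ a ha
  have hinj : Injective z := fun i j hij => hpow i j 1 one_pos (by rw [hij])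
  have hchar : (matRep (ρ ℓ₀) (s σ)).charpoly = ((ρ ℓ₀) () (s σ)).charpoly := by
    rw [matRep_apply, ← Matrix.charpoly_toLin', Matrix.toLin'_toMatrix']
  have hz : ∀ i, aeval (z i) (matRep (ρ ℓ₀) (s σ)).charpoly = 0 := by
    intro i
    rw [hchar]
    exact hz' i
  obtain ⟨hsep, hall⟩ := sep_of_roots (Matrix.charpoly_monic _) (by
    rw [Matrix.charpoly_natDegree_eq_dim, Fintype.card_fin]) hinj hz
  have hdist : DistPow ℓ₀ (matRep (ρ ℓ₀) (s σ)).charpoly := by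
    intro n x y hn hx hy hxy
    obtain ⟨i, rfl⟩ := hall x hx
    obtain ⟨j, rfl⟩ := hall y hy
    rw [hpow i j n hn hxy]
  obtain ⟨v, hv, -, h1⟩ := ZM.realize h Unit (fun _ => ℓ₀) (fun _ _ _ => rfl) (fun _ => σ)
    (fun _ => hsep) (fun _ => hdist) (fun _ => z) (fun _ => hinj) (fun _ => hz)
    (fun _ => by rw [hzR]; exact rankR_of hR)
  obtain ⟨z', hinj', hz', hzR', hτ'⟩ := h1 ()
  have hlift : ∀ a, ∃ y : QQ, aeval y (P v) = 0 ∧ ι y = z' a := fun a =>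
    lift_root ℓ₀ ι hv.1.2.1.ne_zero (hz' a)
  choose x hx hxz using hlift
  have hxz' : (fun a => ι (x a)) = z' := funext hxz
  refine ⟨v, hv, x, fun a b hab => hinj' (by rw [← hxz, ← hxz, hab]), hx, ?_, fun i => ?_⟩
  · rw [← mrel_map ι x, hxz', hzR', hzR]
  · apply ι.injective
    rw [← hσ₀, hxz, hxz]
    exact hτ' τ₀ i (a i) (hτ i)

/-- the zero-one law for semisimplicity -/
theorem main_semi (h : SetupG K Γ s N wt c r S P ρ)
    (hpol : ∀ (ℓ : ℕ) [Fact ℓ.Prime], Polarized (ρ ℓ))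
    (R : Set (Fin N → ℤ)) (hR : RankGE r R)
    {J : Type} [Finite J] (T : J → Set (Equiv.Perm (Fin N))) (hne : ∃ j, (T j).Nonempty)
    (hT : GeneratesInvariably (relAut R) (⋃ j, T j)) (hT' : SeparatedModulo (relAut R) T)
    (p : J → ℕ) [∀ j, Fact (p j).Prime] (τ : ∀ j, Gal(PadicAlgCl (p j)/ℚ_[p j]))
    (hτ : ∀ j, ∀ a ∈ T j, ∃ σ : Gal(AlgebraicClosure K/K), HasType (ρ (p j)) (s σ) R (τ j) a) :
    HasDensityZero {ℓ | ∃ _ : Fact ℓ.Prime, ¬ Semisimple (ρ ℓ)} := by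
  choose σ₀ hσ₀ using fun j => main_local h R hR (T j) (p j) (τ j) (hτ j)
  obtain ⟨hTA, hd⟩ := main_global h R hne hT hT' σ₀ hσ₀
  refine Y142.ZI.DensityZero.mono hd ?_
  rintro ℓ ⟨hp, hno⟩
  exact ⟨hp, fun hc => hno (local_semi h ℓ hT hTA hc.2 hc.1 (hpol ℓ))⟩

/-- the zero-one law for endomorphisms -/
theorem main_endo (h : SetupG K Γ s N wt c r S P ρ)
    (R : Set (Fin N → ℤ)) (hR : RankGE r R)
    {J : Type} [Finite J] (T : J → Set (Equiv.Perm (Fin N))) (hne : ∃ j, (T j).Nonempty)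
    (hT : GeneratesInvariably (relAut R) (⋃ j, T j)) (hT' : SeparatedModulo (relAut R) T)
    (p : J → ℕ) [∀ j, Fact (p j).Prime] (τ : ∀ j, Gal(PadicAlgCl (p j)/ℚ_[p j]))
    (hτ : ∀ j, ∀ a ∈ T j, ∃ σ : Gal(AlgebraicClosure K/K), HasType (ρ (p j)) (s σ) R (τ j) a) :
    HasDensityZero {ℓ | ∃ _ : Fact ℓ.Prime,
      ¬ ∀ Δ : Subgroup Γ, Δ.FiniteIndex → finrank ℚ_[ℓ] (commutant (ρ ℓ) Δ) ≤ numOrbits R} := by
  choose σ₀ hσ₀ using fun j => main_local h R hR (T j) (p j) (τ j) (hτ j)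
  obtain ⟨hTA, hd⟩ := main_global h R hne hT hT' σ₀ hσ₀
  refine Y142.ZI.DensityZero.mono hd ?_
  rintro ℓ ⟨hp, hno⟩
  exact ⟨hp, fun hc => hno fun Δ hΔ => local_endo h ℓ hT hTA hc.2 hc.1 Δ hΔ⟩

theorem centralizerDim_eq {ℓ : ℕ} [Fact ℓ.Prime] (ρ' : Rep1 Γ N ℓ) (Δ : Subgroup Γ) :
    centralizerDim (ρ' () '' (Δ : Set Γ)) = finrank ℚ_[ℓ] (commutant ρ' Δ) := by
  have h1 : Subalgebra.toSubmodule (Subalgebra.centralizer ℚ_[ℓ] (ρ' () '' (Δ : Set Γ))) =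
      commutant ρ' Δ := by
    ext Y
    rw [Subalgebra.mem_toSubmodule, Subalgebra.mem_centralizer_iff]
    constructor
    · intro h γ hγ
      exact h _ ⟨γ, hγ, rfl⟩
    · rintro h _ ⟨γ, hγ, rfl⟩
      exact h γ hγ
  rw [centralizerDim, ← h1]
  rfl

/-- the zero-one law for endomorphisms and invariant subspaces -/
theorem main_irr (h : SetupG K Γ s N wt c r S P ρ)
    (R : Set (Fin N → ℤ)) (hR : RankGE r R)
    {J : Type} [Finite J] (T : J → Set (Equiv.Perm (Fin N))) (hne : ∃ j, (T j).Nonempty)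
    (hT : GeneratesInvariably (relAut R) (⋃ j, T j)) (hT' : SeparatedModulo (relAut R) T)
    (p : J → ℕ) [∀ j, Fact (p j).Prime] (τ : ∀ j, Gal(PadicAlgCl (p j)/ℚ_[p j]))
    (hτ : ∀ j, ∀ a ∈ T j, ∃ σ : Gal(AlgebraicClosure K/K), HasType (ρ (p j)) (s σ) R (τ j) a) :
    HasDensityZero {ℓ | ∃ _ : Fact ℓ.Prime,
      ¬ ∀ Δ : Subgroup Γ, Δ.FiniteIndex → centralizerDim (ρ ℓ () '' (Δ : Set Γ)) ≤ numOrbits R ∧
        (stableSubspaces (ρ ℓ) Δ).encard ≤ 2 ^ numOrbits R} := by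
  choose σ₀ hσ₀ using fun j => main_local h R hR (T j) (p j) (τ j) (hτ j)
  obtain ⟨hTA, hd⟩ := main_global h R hne hT hT' σ₀ hσ₀
  refine Y142.ZI.DensityZero.mono hd ?_
  rintro ℓ ⟨hp, hno⟩
  refine ⟨hp, fun hc => hno fun Δ hΔ => ⟨?_, local_stable h ℓ hT hTA hc.2 hc.1 Δ hΔ⟩⟩
  rw [centralizerDim_eq]
  exact local_endo h ℓ hT hTA hc.2 hc.1 Δ hΔ

end

end Pool.Agent.R931.ZM
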